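import Mathlib

/-!
# The Siegel upper half-space, the group `Γ_g(2,4)` and the quotient `A_g(2,4)`

A complex symmetric matrix `τ` of size `g` is given by its entries `τ_{ij} = τ s(i, j)`, a function
on the unordered pairs `{i, j}`.
-/

set_option autoImplicit false

namespace Pool.Agent.Helper1K9.TH

open Matrix

/-- The complex vector space of symmetric `g × g` matrices, given by the entries `τ_{ij}`,
`{i, j}` an unordered pair. -/
abbrev Sy (g : ℕ) : Type := Sym2 (Fin g) → ℂ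

/-- The matrix `(τ_{ij})`. -/
def mat {g : ℕ} (τ : Sy g) : Matrix (Fin g) (Fin g) ℂ := Matrix.of fun i j => τ s(i, j)

/-- The symmetric matrix with the entries of `T` (when `T` is symmetric). -/
noncomputable def sy {g : ℕ} (T : Matrix (Fin g) (Fin g) ℂ) : Sy g :=
  Sym2.lift ⟨fun i j => (T i j + T j i) / 2, fun i j => by
    show (T i j + T j i) / 2 = (T j i + T i j) / 2
    rw [add_comm]⟩

/-- The Siegel upper half-space: symmetric matrices with positive definite imaginary part. -/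
def Siegel (g : ℕ) : Set (Sy g) := {τ | ((mat τ).map Complex.im).PosDef}

variable {g : ℕ}

theorem mat_symm (τ : Sy g) : (mat τ)ᵀ = mat τ := by
  ext i j
  simp only [mat, transpose_apply, of_apply]
  rw [Sym2.eq_swap]

theorem symm_apply {T : Matrix (Fin g) (Fin g) ℂ} (hT : Tᵀ = T) (i j : Fin g) :
    T j i = T i j := by
  have h := congrFun (congrFun hT i) j
  rw [Matrix.transpose_apply] at h
  exact h

theorem mat_sy {T : Matrix (Fin g) (Fin g) ℂ} (hT : Tᵀ = T) : mat (sy T) = T := by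
  ext i j
  have : T j i = T i j := symm_apply hT i j
  simp only [mat, sy, of_apply, Sym2.lift_mk, this]
  ring

theorem sy_mat (τ : Sy g) : sy (mat τ) = τ := by
  funext p
  induction p with
  | h i j =>
    simp only [mat, sy, Sym2.lift_mk, of_apply]
    rw [Sym2.eq_swap (a := j) (b := i)]
    ring

/-! ### the blocks -/

/-- an integral matrix as a complex one -/
abbrev toC (A : Matrix (Fin g) (Fin g) ℤ) : Matrix (Fin g) (Fin g) ℂ := A.map (Int.cast : ℤ → ℂ)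

/-- The matrix `a τ + b`. -/
noncomputable def num (γ : Matrix (Fin g ⊕ Fin g) (Fin g ⊕ Fin g) ℤ)
    (T : Matrix (Fin g) (Fin g) ℂ) : Matrix (Fin g) (Fin g) ℂ :=
  toC γ.toBlocks₁₁ * T + toC γ.toBlocks₁₂

/-- The matrix `c τ + d`. -/
noncomputable def den (γ : Matrix (Fin g ⊕ Fin g) (Fin g ⊕ Fin g) ℤ)
    (T : Matrix (Fin g) (Fin g) ℂ) : Matrix (Fin g) (Fin g) ℂ :=
  toC γ.toBlocks₂₁ * T + toC γ.toBlocks₂₂

/-- The matrix `(a τ + b) (c τ + d)⁻¹`. -/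
noncomputable def moeb (γ : Matrix (Fin g ⊕ Fin g) (Fin g ⊕ Fin g) ℤ)
    (T : Matrix (Fin g) (Fin g) ℂ) : Matrix (Fin g) (Fin g) ℂ :=
  num γ T * (den γ T)⁻¹

theorem toC_mul (A B : Matrix (Fin g) (Fin g) ℤ) : toC (A * B) = toC A * toC B := by
  simp only [toC]
  exact Matrix.map_mul (f := Int.castRingHom ℂ)

theorem toC_add (A B : Matrix (Fin g) (Fin g) ℤ) : toC (A + B) = toC A + toC B := by
  ext i j; simp [toC]

theorem toC_sub (A B : Matrix (Fin g) (Fin g) ℤ) : toC (A - B) = toC A - toC B := by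
  ext i j; simp [toC]

theorem toC_one : toC (1 : Matrix (Fin g) (Fin g) ℤ) = 1 := by
  ext i j; simp [toC, Matrix.one_apply]

theorem toC_zero : toC (0 : Matrix (Fin g) (Fin g) ℤ) = 0 := by
  ext i j; simp [toC]

theorem toC_transpose (A : Matrix (Fin g) (Fin g) ℤ) : toC Aᵀ = (toC A)ᵀ := by
  ext i j; simp [toC]

theorem toC_conj (A : Matrix (Fin g) (Fin g) ℤ) : (toC A)ᴴ = toC Aᵀ := by
  ext i j; simp [toC]

/-- symplectic relations -/
theorem rels {γ : Matrix (Fin g ⊕ Fin g) (Fin g ⊕ Fin g) ℤ}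
    (h : γ ∈ Matrix.symplecticGroup (Fin g) ℤ) :
    γ.toBlocks₁₁ᵀ * γ.toBlocks₂₁ = γ.toBlocks₂₁ᵀ * γ.toBlocks₁₁ ∧
    γ.toBlocks₁₂ᵀ * γ.toBlocks₂₂ = γ.toBlocks₂₂ᵀ * γ.toBlocks₁₂ ∧
    γ.toBlocks₁₁ᵀ * γ.toBlocks₂₂ - γ.toBlocks₂₁ᵀ * γ.toBlocks₁₂ = 1 := by
  rw [← fromBlocks_toBlocks γ] at h
  exact SymplecticGroup.fromBlocks_mem_iff.1 h

theorem relsC {γ : Matrix (Fin g ⊕ Fin g) (Fin g ⊕ Fin g) ℤ}
    (h : γ ∈ Matrix.symplecticGroup (Fin g) ℤ) :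
    (toC γ.toBlocks₁₁)ᵀ * toC γ.toBlocks₂₁ = (toC γ.toBlocks₂₁)ᵀ * toC γ.toBlocks₁₁ ∧
    (toC γ.toBlocks₁₂)ᵀ * toC γ.toBlocks₂₂ = (toC γ.toBlocks₂₂)ᵀ * toC γ.toBlocks₁₂ ∧
    (toC γ.toBlocks₁₁)ᵀ * toC γ.toBlocks₂₂ - (toC γ.toBlocks₂₁)ᵀ * toC γ.toBlocks₁₂ = 1 := by
  obtain ⟨h1, h2, h3⟩ := rels h
  refine ⟨?_, ?_, ?_⟩
  · rw [← toC_transpose, ← toC_transpose, ← toC_mul, ← toC_mul, h1]
  · rw [← toC_transpose, ← toC_transpose, ← toC_mul, ← toC_mul, h2]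
  · rw [← toC_transpose, ← toC_transpose, ← toC_mul, ← toC_mul, ← toC_sub, h3, toC_one]

/-- `ᵗN M = ᵗM N` -/
theorem tr_num_den {γ : Matrix (Fin g ⊕ Fin g) (Fin g ⊕ Fin g) ℤ}
    (h : γ ∈ Matrix.symplecticGroup (Fin g) ℤ) {T : Matrix (Fin g) (Fin g) ℂ} (hT : Tᵀ = T) :
    (den γ T)ᵀ * num γ T = (num γ T)ᵀ * den γ T := by
  obtain ⟨h1, h2, h3⟩ := relsC h
  have h3' : (toC γ.toBlocks₂₂)ᵀ * toC γ.toBlocks₁₁ - (toC γ.toBlocks₁₂)ᵀ * toC γ.toBlocks₂₁ = 1 := by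
    have := congrArg Matrix.transpose h3
    simpa [Matrix.transpose_sub, Matrix.transpose_mul] using this
  simp only [num, den, Matrix.transpose_add, Matrix.transpose_mul, hT]
  have e1 : (T * (toC γ.toBlocks₂₁)ᵀ + (toC γ.toBlocks₂₂)ᵀ) *
      (toC γ.toBlocks₁₁ * T + toC γ.toBlocks₁₂) =
      T * ((toC γ.toBlocks₂₁)ᵀ * toC γ.toBlocks₁₁) * T
      + T * ((toC γ.toBlocks₂₁)ᵀ * toC γ.toBlocks₁₂)
      + ((toC γ.toBlocks₂₂)ᵀ * toC γ.toBlocks₁₁) * T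
      + (toC γ.toBlocks₂₂)ᵀ * toC γ.toBlocks₁₂ := by noncomm_ring
  have e2 : (T * (toC γ.toBlocks₁₁)ᵀ + (toC γ.toBlocks₁₂)ᵀ) *
      (toC γ.toBlocks₂₁ * T + toC γ.toBlocks₂₂) =
      T * ((toC γ.toBlocks₁₁)ᵀ * toC γ.toBlocks₂₁) * T
      + T * ((toC γ.toBlocks₁₁)ᵀ * toC γ.toBlocks₂₂)
      + ((toC γ.toBlocks₁₂)ᵀ * toC γ.toBlocks₂₁) * T
      + (toC γ.toBlocks₁₂)ᵀ * toC γ.toBlocks₂₂ := by noncomm_ring
  rw [e1, e2, h1, h2, sub_eq_iff_eq_add.1 h3, sub_eq_iff_eq_add.1 h3']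
  noncomm_ring

/-- `N* M - M* N = T - T*` -/
theorem conj_num_den {γ : Matrix (Fin g ⊕ Fin g) (Fin g ⊕ Fin g) ℤ}
    (h : γ ∈ Matrix.symplecticGroup (Fin g) ℤ) (T : Matrix (Fin g) (Fin g) ℂ) :
    (den γ T)ᴴ * num γ T - (num γ T)ᴴ * den γ T = T - Tᴴ := by
  obtain ⟨h1, h2, h3⟩ := relsC h
  have h3' : (toC γ.toBlocks₂₂)ᵀ * toC γ.toBlocks₁₁ - (toC γ.toBlocks₁₂)ᵀ * toC γ.toBlocks₂₁ = 1 := by
    have := congrArg Matrix.transpose h3
    simpa [Matrix.transpose_sub, Matrix.transpose_mul] using this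
  simp only [num, den, Matrix.conjTranspose_add, Matrix.conjTranspose_mul, toC_conj, toC_transpose]
  have e1 : (Tᴴ * (toC γ.toBlocks₂₁)ᵀ + (toC γ.toBlocks₂₂)ᵀ) *
      (toC γ.toBlocks₁₁ * T + toC γ.toBlocks₁₂) =
      Tᴴ * ((toC γ.toBlocks₂₁)ᵀ * toC γ.toBlocks₁₁) * T
      + Tᴴ * ((toC γ.toBlocks₂₁)ᵀ * toC γ.toBlocks₁₂)
      + ((toC γ.toBlocks₂₂)ᵀ * toC γ.toBlocks₁₁) * T
      + (toC γ.toBlocks₂₂)ᵀ * toC γ.toBlocks₁₂ := by noncomm_ring
  have e2 : (Tᴴ * (toC γ.toBlocks₁₁)ᵀ + (toC γ.toBlocks₁₂)ᵀ) *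
      (toC γ.toBlocks₂₁ * T + toC γ.toBlocks₂₂) =
      Tᴴ * ((toC γ.toBlocks₁₁)ᵀ * toC γ.toBlocks₂₁) * T
      + Tᴴ * ((toC γ.toBlocks₁₁)ᵀ * toC γ.toBlocks₂₂)
      + ((toC γ.toBlocks₁₂)ᵀ * toC γ.toBlocks₂₁) * T
      + (toC γ.toBlocks₁₂)ᵀ * toC γ.toBlocks₂₂ := by noncomm_ring
  rw [e1, e2, h1, h2, sub_eq_iff_eq_add.1 h3, sub_eq_iff_eq_add.1 h3']
  noncomm_ring

/-! ### positivity -/

theorem im_form {T : Matrix (Fin g) (Fin g) ℂ} (hT : Tᵀ = T) (v : Fin g → ℂ) :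
    (star v ⬝ᵥ (T *ᵥ v)).im =
      (fun i => (v i).re) ⬝ᵥ ((T.map Complex.im) *ᵥ fun i => (v i).re) +
      (fun i => (v i).im) ⬝ᵥ ((T.map Complex.im) *ᵥ fun i => (v i).im) := by
  have hs : ∀ i j, T j i = T i j := symm_apply hT
  simp only [dotProduct, mulVec, Finset.mul_sum, Complex.im_sum, Pi.star_apply, Matrix.map_apply,
    Complex.star_def, Complex.mul_im, Complex.mul_re, Complex.conj_re, Complex.conj_im]
  rw [← Finset.sum_add_distrib]
  simp only [← Finset.sum_add_distrib]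
  have hz : ∑ i, ∑ j, ((T i j).re * ((v i).re * (v j).im - (v i).im * (v j).re)) = 0 := by
    have h2 : ∑ i, ∑ j, ((T i j).re * ((v i).re * (v j).im - (v i).im * (v j).re)) =
        - ∑ i, ∑ j, ((T i j).re * ((v i).re * (v j).im - (v i).im * (v j).re)) := by
      conv_lhs => rw [Finset.sum_comm]
      rw [← Finset.sum_neg_distrib]
      refine Finset.sum_congr rfl fun i _ => ?_
      rw [← Finset.sum_neg_distrib]
      refine Finset.sum_congr rfl fun j _ => ?_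
      rw [hs i j]; ring
    linarith
  have : ∀ a b : ℝ, a - b = 0 → a = b := fun a b h => sub_eq_zero.1 h
  apply this
  rw [← Finset.sum_sub_distrib, ← hz]
  refine Finset.sum_congr rfl fun i _ => ?_
  rw [← Finset.sum_sub_distrib]
  refine Finset.sum_congr rfl fun j _ => ?_
  ring

theorem form_pos {T : Matrix (Fin g) (Fin g) ℂ} (hT : Tᵀ = T) (hp : (T.map Complex.im).PosDef)
    {v : Fin g → ℂ} (hv : v ≠ 0) : 0 < (star v ⬝ᵥ (T *ᵥ v)).im := by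
  rw [im_form hT]
  rw [Matrix.posDef_iff_dotProduct_mulVec] at hp
  have hp2 := hp.2
  by_cases hre : (fun i => (v i).re) = 0
  · have him : (fun i => (v i).im) ≠ 0 := by
      intro h
      apply hv
      funext i
      exact Complex.ext (congrFun hre i) (congrFun h i)
    have h1 := hp2 him
    rw [hre]
    simpa using h1
  · have h1 := hp2 hre
    have h2 : 0 ≤ (fun i => (v i).im) ⬝ᵥ ((T.map Complex.im) *ᵥ fun i => (v i).im) := by
      by_cases him : (fun i => (v i).im) = 0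
      · rw [him]; simp
      · have := hp2 him
        simpa using this.le
    have h1' : 0 < (fun i => (v i).re) ⬝ᵥ ((T.map Complex.im) *ᵥ fun i => (v i).re) := by
      simpa using h1
    linarith

theorem posDef_of_form {T : Matrix (Fin g) (Fin g) ℂ} (hT : Tᵀ = T)
    (h : ∀ v : Fin g → ℂ, v ≠ 0 → 0 < (star v ⬝ᵥ (T *ᵥ v)).im) : (T.map Complex.im).PosDef := by
  rw [Matrix.posDef_iff_dotProduct_mulVec]
  refine ⟨?_, ?_⟩
  · ext i j
    have : T j i = T i j := symm_apply hT i j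
    simp [this]
  · intro x hx
    have h1 := h (fun i => (x i : ℂ)) (by
      intro h0
      apply hx
      funext i
      have := congrFun h0 i
      simpa using this)
    rw [im_form hT] at h1
    simpa using h1

theorem den_unit {γ : Matrix (Fin g ⊕ Fin g) (Fin g ⊕ Fin g) ℤ}
    (h : γ ∈ Matrix.symplecticGroup (Fin g) ℤ) {T : Matrix (Fin g) (Fin g) ℂ} (hT : Tᵀ = T)
    (hp : (T.map Complex.im).PosDef) : IsUnit (den γ T).det := by
  rw [isUnit_iff_ne_zero]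
  intro h0
  obtain ⟨v, hv, hv0⟩ := Matrix.exists_mulVec_eq_zero_iff.2 h0
  have h1 := conj_num_den h T
  have h2 : star v ⬝ᵥ (((den γ T)ᴴ * num γ T - (num γ T)ᴴ * den γ T) *ᵥ v) = 0 := by
    rw [Matrix.sub_mulVec, dotProduct_sub, ← Matrix.mulVec_mulVec, ← Matrix.mulVec_mulVec, hv0,
      Matrix.mulVec_zero, dotProduct_zero, Matrix.dotProduct_mulVec, ← Matrix.star_mulVec, hv0]
    simp
  rw [h1, Matrix.sub_mulVec, dotProduct_sub] at h2
  have h3 : star v ⬝ᵥ (Tᴴ *ᵥ v) = star (star v ⬝ᵥ (T *ᵥ v)) := by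
    rw [Matrix.star_dotProduct, Matrix.star_mulVec, Matrix.conjTranspose_conjTranspose,
      Matrix.dotProduct_mulVec]
  have h4 := form_pos hT hp hv
  rw [h3] at h2
  have h5 := congrArg Complex.im h2
  simp at h5
  linarith

end Pool.Agent.Helper1K9.TH
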