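import Pool.Agent.Helper1K9.TH.Act

set_option autoImplicit false

namespace Pool.Agent.Helper1K9.TH

open Matrix

variable {g : ℕ}

theorem moeb_symm {γ : Matrix (Fin g ⊕ Fin g) (Fin g ⊕ Fin g) ℤ}
    (h : γ ∈ Matrix.symplecticGroup (Fin g) ℤ) {T : Matrix (Fin g) (Fin g) ℂ} (hT : Tᵀ = T)
    (hp : (T.map Complex.im).PosDef) : (moeb γ T)ᵀ = moeb γ T := by
  have hu := den_unit h hT hp
  have hut : IsUnit (den γ T)ᵀ.det := by rwa [Matrix.det_transpose]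
  have h1 := tr_num_den h hT
  have h2 : (num γ T)ᵀ = (den γ T)ᵀ * num γ T * (den γ T)⁻¹ := by
    rw [h1, Matrix.mul_assoc, Matrix.mul_nonsing_inv _ hu, Matrix.mul_one]
  rw [moeb, Matrix.transpose_mul, Matrix.transpose_nonsing_inv, h2, ← Matrix.mul_assoc,
    ← Matrix.mul_assoc, Matrix.nonsing_inv_mul _ hut, Matrix.one_mul]

theorem moeb_mul_den {γ : Matrix (Fin g ⊕ Fin g) (Fin g ⊕ Fin g) ℤ}
    (h : γ ∈ Matrix.symplecticGroup (Fin g) ℤ) {T : Matrix (Fin g) (Fin g) ℂ} (hT : Tᵀ = T)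
    (hp : (T.map Complex.im).PosDef) : moeb γ T * den γ T = num γ T := by
  rw [moeb, Matrix.mul_assoc, Matrix.nonsing_inv_mul _ (den_unit h hT hp), Matrix.mul_one]

/-- `Im (w* (γ T) w) = Im (v* T v)` for `w = (c T + d) v` -/
theorem form_moeb {γ : Matrix (Fin g ⊕ Fin g) (Fin g ⊕ Fin g) ℤ}
    (h : γ ∈ Matrix.symplecticGroup (Fin g) ℤ) {T : Matrix (Fin g) (Fin g) ℂ} (hT : Tᵀ = T)
    (hp : (T.map Complex.im).PosDef) (v : Fin g → ℂ) :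
    (star (den γ T *ᵥ v) ⬝ᵥ (moeb γ T *ᵥ (den γ T *ᵥ v))).im = (star v ⬝ᵥ (T *ᵥ v)).im := by
  have e0 : star (den γ T *ᵥ v) ⬝ᵥ (moeb γ T *ᵥ (den γ T *ᵥ v)) =
      star v ⬝ᵥ (((den γ T)ᴴ * num γ T) *ᵥ v) := by
    rw [Matrix.mulVec_mulVec, moeb_mul_den h hT hp, Matrix.star_mulVec, Matrix.dotProduct_mulVec,
      Matrix.vecMul_vecMul, ← Matrix.dotProduct_mulVec]
  have e1 : star (star v ⬝ᵥ (((den γ T)ᴴ * num γ T) *ᵥ v)) =
      star v ⬝ᵥ (((num γ T)ᴴ * den γ T) *ᵥ v) := by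
    have : ((num γ T)ᴴ * den γ T) = ((den γ T)ᴴ * num γ T)ᴴ := by
      rw [Matrix.conjTranspose_mul, Matrix.conjTranspose_conjTranspose]
    rw [this, Matrix.star_dotProduct (v := v), Matrix.star_mulVec, star_star,
      Matrix.dotProduct_mulVec]
  have e2 : star (star v ⬝ᵥ (T *ᵥ v)) = star v ⬝ᵥ (Tᴴ *ᵥ v) := by
    rw [Matrix.star_dotProduct (v := v), Matrix.star_mulVec, star_star, Matrix.dotProduct_mulVec]
  have e3 := congrArg (fun A => star v ⬝ᵥ (A *ᵥ v)) (conj_num_den h T)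
  simp only [Matrix.sub_mulVec, dotProduct_sub] at e3
  rw [← e1, ← e2] at e3
  rw [e0]
  have e4 := congrArg Complex.im e3
  simp at e4
  linarith

theorem moeb_posDef {γ : Matrix (Fin g ⊕ Fin g) (Fin g ⊕ Fin g) ℤ}
    (h : γ ∈ Matrix.symplecticGroup (Fin g) ℤ) {T : Matrix (Fin g) (Fin g) ℂ} (hT : Tᵀ = T)
    (hp : (T.map Complex.im).PosDef) : ((moeb γ T).map Complex.im).PosDef := by
  apply posDef_of_form (moeb_symm h hT hp)
  intro w hw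
  have hu := den_unit h hT hp
  have hw2 : den γ T *ᵥ ((den γ T)⁻¹ *ᵥ w) = w := by
    rw [Matrix.mulVec_mulVec, Matrix.mul_nonsing_inv _ hu, Matrix.one_mulVec]
  have hv : (den γ T)⁻¹ *ᵥ w ≠ 0 := by
    intro h0
    apply hw
    rw [← hw2, h0, Matrix.mulVec_zero]
  have := form_moeb h hT hp ((den γ T)⁻¹ *ᵥ w)
  rw [hw2] at this
  rw [this]
  exact form_pos hT hp hv

theorem toBlocks_mul (γ γ' : Matrix (Fin g ⊕ Fin g) (Fin g ⊕ Fin g) ℤ) :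
    (γ * γ').toBlocks₁₁ = γ.toBlocks₁₁ * γ'.toBlocks₁₁ + γ.toBlocks₁₂ * γ'.toBlocks₂₁ ∧
    (γ * γ').toBlocks₁₂ = γ.toBlocks₁₁ * γ'.toBlocks₁₂ + γ.toBlocks₁₂ * γ'.toBlocks₂₂ ∧
    (γ * γ').toBlocks₂₁ = γ.toBlocks₂₁ * γ'.toBlocks₁₁ + γ.toBlocks₂₂ * γ'.toBlocks₂₁ ∧
    (γ * γ').toBlocks₂₂ = γ.toBlocks₂₁ * γ'.toBlocks₁₂ + γ.toBlocks₂₂ * γ'.toBlocks₂₂ := by
  have h : γ * γ' = fromBlocks γ.toBlocks₁₁ γ.toBlocks₁₂ γ.toBlocks₂₁ γ.toBlocks₂₂ *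
      fromBlocks γ'.toBlocks₁₁ γ'.toBlocks₁₂ γ'.toBlocks₂₁ γ'.toBlocks₂₂ := by
    rw [fromBlocks_toBlocks, fromBlocks_toBlocks]
  rw [h, fromBlocks_multiply]
  simp only [toBlocks_fromBlocks₁₁, toBlocks_fromBlocks₁₂, toBlocks_fromBlocks₂₁,
    toBlocks_fromBlocks₂₂, and_self]

theorem num_mul (γ γ' : Matrix (Fin g ⊕ Fin g) (Fin g ⊕ Fin g) ℤ) (T : Matrix (Fin g) (Fin g) ℂ) :
    num (γ * γ') T = toC γ.toBlocks₁₁ * num γ' T + toC γ.toBlocks₁₂ * den γ' T := by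
  obtain ⟨h1, h2, h3, h4⟩ := toBlocks_mul γ γ'
  simp only [num, den, h1, h2, toC_add, toC_mul]
  noncomm_ring

theorem den_mul (γ γ' : Matrix (Fin g ⊕ Fin g) (Fin g ⊕ Fin g) ℤ) (T : Matrix (Fin g) (Fin g) ℂ) :
    den (γ * γ') T = toC γ.toBlocks₂₁ * num γ' T + toC γ.toBlocks₂₂ * den γ' T := by
  obtain ⟨h1, h2, h3, h4⟩ := toBlocks_mul γ γ'
  simp only [num, den, h3, h4, toC_add, toC_mul]
  noncomm_ring

theorem moeb_moeb {γ γ' : Matrix (Fin g ⊕ Fin g) (Fin g ⊕ Fin g) ℤ}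
    (h : γ ∈ Matrix.symplecticGroup (Fin g) ℤ) (h' : γ' ∈ Matrix.symplecticGroup (Fin g) ℤ)
    {T : Matrix (Fin g) (Fin g) ℂ} (hT : Tᵀ = T) (hp : (T.map Complex.im).PosDef) :
    moeb (γ * γ') T = moeb γ (moeb γ' T) := by
  have hu' := den_unit h' hT hp
  have hN : num (γ * γ') T = num γ (moeb γ' T) * den γ' T := by
    rw [num_mul, ← moeb_mul_den h' hT hp]
    have e : num γ (moeb γ' T) = toC γ.toBlocks₁₁ * moeb γ' T + toC γ.toBlocks₁₂ := rfl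
    rw [e, Matrix.add_mul, Matrix.mul_assoc]
  have hD : den (γ * γ') T = den γ (moeb γ' T) * den γ' T := by
    rw [den_mul, ← moeb_mul_den h' hT hp]
    have e : den γ (moeb γ' T) = toC γ.toBlocks₂₁ * moeb γ' T + toC γ.toBlocks₂₂ := rfl
    rw [e, Matrix.add_mul, Matrix.mul_assoc]
  have e1 : moeb (γ * γ') T = num (γ * γ') T * (den (γ * γ') T)⁻¹ := rfl
  have e2 : moeb γ (moeb γ' T) = num γ (moeb γ' T) * (den γ (moeb γ' T))⁻¹ := rfl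
  rw [e1, e2, hN, hD, Matrix.mul_inv_rev, ← Matrix.mul_assoc,
    Matrix.mul_assoc (num γ (moeb γ' T)), Matrix.mul_nonsing_inv _ hu', Matrix.mul_one]

theorem moeb_one (T : Matrix (Fin g) (Fin g) ℂ) : moeb 1 T = T := by
  have h1 : (1 : Matrix (Fin g ⊕ Fin g) (Fin g ⊕ Fin g) ℤ) = fromBlocks 1 0 0 1 :=
    fromBlocks_one.symm
  simp only [moeb, num, den, h1, toBlocks_fromBlocks₁₁, toBlocks_fromBlocks₁₂,
    toBlocks_fromBlocks₂₁, toBlocks_fromBlocks₂₂, toC_one, toC_zero]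
  simp

/-! ### the group `Γ_g(2,4)` -/

/-- The congruence conditions defining `Γ_g(2,4)` inside `Sp(2g, ℤ)`: `γ ≡ 1` modulo `2`, and the
diagonals of `a ᵗb` and `c ᵗd` are divisible by `4`. -/
def InGam (γ : Matrix (Fin g ⊕ Fin g) (Fin g ⊕ Fin g) ℤ) : Prop :=
  (∀ i j, (2 : ℤ) ∣ (γ - 1) i j) ∧
  (∀ i, (4 : ℤ) ∣ (γ.toBlocks₁₁ * γ.toBlocks₁₂ᵀ) i i) ∧
  (∀ i, (4 : ℤ) ∣ (γ.toBlocks₂₁ * γ.toBlocks₂₂ᵀ) i i)

theorem even_block {γ : Matrix (Fin g ⊕ Fin g) (Fin g ⊕ Fin g) ℤ}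
    (h : ∀ i j, (2 : ℤ) ∣ (γ - 1) i j) :
    (∀ i j, i ≠ j → (2 : ℤ) ∣ γ.toBlocks₁₁ i j) ∧ (∀ i, (2 : ℤ) ∣ γ.toBlocks₁₁ i i - 1) ∧
    (∀ i j, (2 : ℤ) ∣ γ.toBlocks₁₂ i j) ∧ (∀ i j, (2 : ℤ) ∣ γ.toBlocks₂₁ i j) ∧
    (∀ i j, i ≠ j → (2 : ℤ) ∣ γ.toBlocks₂₂ i j) ∧ (∀ i, (2 : ℤ) ∣ γ.toBlocks₂₂ i i - 1) := by
  refine ⟨fun i j hij => ?_, fun i => ?_, fun i j => ?_, fun i j => ?_, fun i j hij => ?_,
    fun i => ?_⟩
  · have := h (Sum.inl i) (Sum.inl j)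
    simpa [Matrix.one_apply, hij, toBlocks₁₁] using this
  · have := h (Sum.inl i) (Sum.inl i)
    simpa [Matrix.one_apply, toBlocks₁₁] using this
  · have := h (Sum.inl i) (Sum.inr j)
    simpa [Matrix.one_apply, toBlocks₁₂] using this
  · have := h (Sum.inr i) (Sum.inl j)
    simpa [Matrix.one_apply, toBlocks₂₁] using this
  · have := h (Sum.inr i) (Sum.inr j)
    simpa [Matrix.one_apply, hij, toBlocks₂₂] using this
  · have := h (Sum.inr i) (Sum.inr i)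
    simpa [Matrix.one_apply, toBlocks₂₂] using this

/-- if `A ≡ 1` and `B ≡ 0` modulo `2` then `(A ᵗB)_{ii} ≡ B_{ii}` modulo `4` -/
theorem diag_aux {A B : Matrix (Fin g) (Fin g) ℤ} (hA : ∀ i j, i ≠ j → (2 : ℤ) ∣ A i j)
    (hA1 : ∀ i, (2 : ℤ) ∣ A i i - 1) (hB : ∀ i j, (2 : ℤ) ∣ B i j) (i : Fin g) :
    (4 : ℤ) ∣ (A * Bᵀ) i i - B i i := by
  have h1 : (A * Bᵀ) i i - B i i = ∑ k, (A i k - (1 : Matrix (Fin g) (Fin g) ℤ) i k) * B i k := by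
    simp only [Matrix.mul_apply, transpose_apply, sub_mul, Finset.sum_sub_distrib]
    congr 1
    simp [Matrix.one_apply]
  rw [h1]
  apply Finset.dvd_sum
  intro k _
  have e : (4 : ℤ) = 2 * 2 := by norm_num
  rw [e]
  apply mul_dvd_mul _ (hB i k)
  by_cases hik : i = k
  · subst hik; simpa [Matrix.one_apply] using hA1 i
  · simpa [Matrix.one_apply, hik] using hA i k hik

theorem diag_aux' {A B : Matrix (Fin g) (Fin g) ℤ} (hA : ∀ i j, i ≠ j → (2 : ℤ) ∣ A i j)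
    (hA1 : ∀ i, (2 : ℤ) ∣ A i i - 1) (hB : ∀ i j, (2 : ℤ) ∣ B i j) (i : Fin g) :
    (4 : ℤ) ∣ (B * Aᵀ) i i - B i i := by
  have h := diag_aux hA hA1 hB i
  have : (B * Aᵀ) i i = (A * Bᵀ) i i := by
    simp only [Matrix.mul_apply, transpose_apply, mul_comm]
  rwa [this]

theorem inGam_iff {γ : Matrix (Fin g ⊕ Fin g) (Fin g ⊕ Fin g) ℤ} :
    InGam γ ↔ (∀ i j, (2 : ℤ) ∣ (γ - 1) i j) ∧ (∀ i, (4 : ℤ) ∣ γ.toBlocks₁₂ i i) ∧
      (∀ i, (4 : ℤ) ∣ γ.toBlocks₂₁ i i) := by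
  unfold InGam
  constructor
  · rintro ⟨h, h1, h2⟩
    obtain ⟨a1, a2, b, c, d1, d2⟩ := even_block h
    refine ⟨h, fun i => ?_, fun i => ?_⟩
    · have := diag_aux a1 a2 b i
      have h3 := h1 i
      omega
    · have := diag_aux' d1 d2 c i
      have h3 := h2 i
      omega
  · rintro ⟨h, h1, h2⟩
    obtain ⟨a1, a2, b, c, d1, d2⟩ := even_block h
    refine ⟨h, fun i => ?_, fun i => ?_⟩
    · have := diag_aux a1 a2 b i
      have h3 := h1 i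
      omega
    · have := diag_aux' d1 d2 c i
      have h3 := h2 i
      omega

/-- The theta level 2 subgroup `Γ_g(2,4)` of `Sp(2g, ℤ)`. -/
def Gam (g : ℕ) : Subgroup (Matrix.symplecticGroup (Fin g) ℤ) where
  carrier := {γ | InGam γ.1}
  mul_mem' := by
    intro γ γ' h h'
    simp only [Set.mem_ofPred_eq, inGam_iff] at h h' ⊢
    obtain ⟨h, hb, hc⟩ := h
    obtain ⟨h', hb', hc'⟩ := h'
    have hm : ∀ i j, (2 : ℤ) ∣ (γ.1 * γ'.1 - 1) i j := by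
      intro i j
      have e : γ.1 * γ'.1 - 1 = (γ.1 - 1) * γ'.1 + (γ'.1 - 1) := by noncomm_ring
      rw [e, Matrix.add_apply, Matrix.mul_apply]
      exact dvd_add (Finset.dvd_sum fun k _ => Dvd.dvd.mul_right (h i k) _) (h' i j)
    obtain ⟨a1, a2, b, c, d1, d2⟩ := even_block h
    obtain ⟨a1', a2', b', c', d1', d2'⟩ := even_block h'
    obtain ⟨m1, m2, m3, m4⟩ := toBlocks_mul γ.1 γ'.1
    refine ⟨hm, fun i => ?_, fun i => ?_⟩
    · show (4 : ℤ) ∣ (γ.1 * γ'.1).toBlocks₁₂ i i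
      rw [m2, Matrix.add_apply]
      have e1 : (4 : ℤ) ∣ (γ.1.toBlocks₁₁ * γ'.1.toBlocks₁₂ᵀᵀ) i i - γ'.1.toBlocks₁₂ᵀ i i :=
        diag_aux a1 a2 (fun i j => b' j i) i
      have e2 : (4 : ℤ) ∣ (γ.1.toBlocks₁₂ * γ'.1.toBlocks₂₂ᵀᵀ) i i - γ.1.toBlocks₁₂ i i :=
        diag_aux' (A := γ'.1.toBlocks₂₂ᵀ) (fun i j hij => d1' j i (Ne.symm hij)) (fun i => d2' i) b i
      rw [transpose_transpose] at e1 e2
      rw [transpose_apply] at e1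
      have := hb i
      have := hb' i
      omega
    · show (4 : ℤ) ∣ (γ.1 * γ'.1).toBlocks₂₁ i i
      rw [m3, Matrix.add_apply]
      have e1 : (4 : ℤ) ∣ (γ.1.toBlocks₂₂ * γ'.1.toBlocks₂₁ᵀᵀ) i i - γ'.1.toBlocks₂₁ᵀ i i :=
        diag_aux d1 d2 (fun i j => c' j i) i
      have e2 : (4 : ℤ) ∣ (γ.1.toBlocks₂₁ * γ'.1.toBlocks₁₁ᵀᵀ) i i - γ.1.toBlocks₂₁ i i :=
        diag_aux' (A := γ'.1.toBlocks₁₁ᵀ) (fun i j hij => a1' j i (Ne.symm hij)) (fun i => a2' i) c i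
      rw [transpose_transpose] at e1 e2
      rw [transpose_apply] at e1
      have := hc i
      have := hc' i
      omega
  one_mem' := by
    simp only [Set.mem_ofPred_eq, inGam_iff]
    have h1 : (1 : Matrix (Fin g ⊕ Fin g) (Fin g ⊕ Fin g) ℤ) = fromBlocks 1 0 0 1 :=
      fromBlocks_one.symm
    refine ⟨by simp, fun i => ?_, fun i => ?_⟩
    · rw [Submonoid.coe_one, h1, toBlocks_fromBlocks₁₂]; simp
    · rw [Submonoid.coe_one, h1, toBlocks_fromBlocks₂₁]; simp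
  inv_mem' := by
    intro γ h
    simp only [Set.mem_ofPred_eq, inGam_iff] at h ⊢
    obtain ⟨h, hb, hc⟩ := h
    have hinv : (γ⁻¹).1 = fromBlocks γ.1.toBlocks₂₂ᵀ (-γ.1.toBlocks₁₂ᵀ) (-γ.1.toBlocks₂₁ᵀ)
        γ.1.toBlocks₁₁ᵀ := by
      have e := SymplecticGroup.coe_inv γ
      rw [← fromBlocks_toBlocks (γ.1)] at e
      rw [e, fromBlocks_transpose, Matrix.J, fromBlocks_neg, fromBlocks_multiply,
        fromBlocks_multiply]
      simp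
    refine ⟨fun i j => ?_, fun i => ?_, fun i => ?_⟩
    · have e : (γ⁻¹).1 - 1 = -((γ⁻¹).1 * (γ.1 - 1)) := by
        have : (γ⁻¹).1 * γ.1 = 1 := by
          rw [← Submonoid.coe_mul, inv_mul_cancel, Submonoid.coe_one]
        rw [mul_sub, this, mul_one]
        noncomm_ring
      rw [e, Matrix.neg_apply, Matrix.mul_apply]
      exact (dvd_neg).2 (Finset.dvd_sum fun k _ => Dvd.dvd.mul_left (h k j) _)
    · rw [hinv, toBlocks_fromBlocks₁₂, Matrix.neg_apply, Matrix.transpose_apply]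
      exact (dvd_neg).2 (hb i)
    · rw [hinv, toBlocks_fromBlocks₂₁, Matrix.neg_apply, Matrix.transpose_apply]
      exact (dvd_neg).2 (hc i)

/-- `Γ_g(2,4)` acts on the Siegel upper half-space by `τ ↦ (a τ + b) (c τ + d)⁻¹`. -/
noncomputable instance : MulAction (Gam g) (Siegel g) where
  smul γ τ := ⟨sy (moeb γ.1.1 (mat τ.1)), by
    have h := moeb_posDef γ.1.2 (mat_symm τ.1) τ.2
    show ((mat (sy (moeb γ.1.1 (mat τ.1)))).map Complex.im).PosDef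
    rwa [mat_sy (moeb_symm γ.1.2 (mat_symm τ.1) τ.2)]⟩
  one_smul τ := by
    apply Subtype.ext
    show sy (moeb 1 (mat τ.1)) = τ.1
    rw [moeb_one, sy_mat]
  mul_smul γ γ' τ := by
    apply Subtype.ext
    show sy (moeb (γ.1.1 * γ'.1.1) (mat τ.1)) = sy (moeb γ.1.1 (mat (sy (moeb γ'.1.1 (mat τ.1)))))
    rw [mat_sy (moeb_symm γ'.1.2 (mat_symm τ.1) τ.2),
      moeb_moeb γ.1.2 γ'.1.2 (mat_symm τ.1) τ.2]

theorem coe_smul (γ : Gam g) (τ : Siegel g) : (γ • τ).1 = sy (moeb γ.1.1 (mat τ.1)) := rfl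

theorem mat_smul (γ : Gam g) (τ : Siegel g) : mat (γ • τ).1 = moeb γ.1.1 (mat τ.1) := by
  rw [coe_smul, mat_sy (moeb_symm γ.1.2 (mat_symm τ.1) τ.2)]

/-- `A_g(2,4)`, the quotient of the Siegel upper half-space by `Γ_g(2,4)`. -/
noncomputable def A24 (g : ℕ) : Type := Quotient (MulAction.orbitRel (Gam g) (Siegel g))

noncomputable instance : TopologicalSpace (A24 g) :=
  inferInstanceAs (TopologicalSpace (Quotient (MulAction.orbitRel (Gam g) (Siegel g))))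

/-- The class of `τ` in `A_g(2,4)`. -/
noncomputable def A24.mk (τ : Siegel g) : A24 g := Quotient.mk (MulAction.orbitRel (Gam g) (Siegel g)) τ

theorem A24.mk_eq {τ τ' : Siegel g} : A24.mk τ = A24.mk τ' ↔ ∃ γ : Gam g, γ • τ' = τ :=
  Quotient.eq.trans (MulAction.orbitRel_apply.trans Iff.rfl)

end Pool.Agent.Helper1K9.TH
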