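import Mathlib

set_option autoImplicit false

namespace Pool.Agent.Helper1K9.TH

open Filter Topology

theorem summable_exp_int : Summable (fun n : ℤ => Real.exp (1 - |(n : ℝ)|)) := by
  have h1 : Summable (fun n : ℕ => Real.exp (1 - (n : ℝ))) := by
    have e : (fun n : ℕ => Real.exp (1 - (n : ℝ))) = fun n : ℕ => Real.exp 1 * (Real.exp (-1)) ^ n := by
      funext n
      rw [← Real.exp_nat_mul, ← Real.exp_add]
      congr 1; ring
    rw [e]
    refine (summable_geometric_of_lt_one (Real.exp_pos _).le ?_).mul_left _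
    rw [Real.exp_lt_one_iff]; norm_num
  refine Summable.of_nat_of_neg ?_ ?_
  · refine h1.congr fun n => ?_
    simp
  · refine h1.congr fun n => ?_
    simp

theorem summable_prod (g : ℕ) (f : ℤ → ℝ) (h0 : ∀ n, 0 ≤ f n) (hf : Summable f) :
    Summable (fun n : Fin g → ℤ => ∏ a, f (n a)) := by
  induction g with
  | zero =>
    exact Summable.of_finite
  | succ g ih =>
    rw [← (Fin.consEquiv (fun _ : Fin (g + 1) => ℤ)).summable_iff]
    have h := Summable.mul_of_nonneg hf ih h0 (fun n => Finset.prod_nonneg fun a _ => h0 _)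
    refine h.congr fun p => ?_
    simp [Fin.prod_univ_succ, Fin.consEquiv]

theorem summable_bd (g : ℕ) : Summable (fun n : Fin g → ℤ => ∏ a, Real.exp (1 - |(n a : ℝ)|)) :=
  summable_prod g (fun n : ℤ => Real.exp (1 - |(n : ℝ)|)) (fun _ => (Real.exp_pos _).le)
    summable_exp_int

end Pool.Agent.Helper1K9.TH
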