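import Pool.Agent.Helper1K9.TH.Near
import Pool.Agent.Helper1K9.TH.Sum

set_option autoImplicit false

namespace Pool.Agent.Helper1K9.TH

open Matrix Filter Topology

variable {g : ℕ}

/-- The theta function with characteristic
`θ[ε; δ](τ, z) = ∑_{n ∈ ℤ^g} exp (π i (n + ε)ᵗ (τ (n + ε) + 2 (z + δ)))`. -/
noncomputable def theta (ε δ : Fin g → ℝ) (T : Matrix (Fin g) (Fin g) ℂ) (z : Fin g → ℂ) : ℂ :=
  ∑' n : Fin g → ℤ, Complex.exp (Real.pi * Complex.I *
    ((fun i => (n i : ℂ) + (ε i : ℂ)) ⬝ᵥ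
      (T *ᵥ (fun i => (n i : ℂ) + (ε i : ℂ)) + (2 : ℂ) • fun i => z i + (δ i : ℂ))))

/-- The vector of the `2^g` second-order theta constants `Θ[ε](τ) = θ[ε; 0](2τ, 0)`, with
`ε = c / 2`, `c ∈ {0,1}^g`. -/
noncomputable def Th (τ : Sy g) : (Fin g → Fin 2) → ℂ := fun c =>
  theta (fun i => ((c i : ℕ) : ℝ) / 2) 0 ((2 : ℂ) • mat τ) 0

/-- the point `i · 1_g` -/
noncomputable def base (g : ℕ) : Sy g := fun p => if p.IsDiag then Complex.I else 0

/-- the summation vector `m = n + c / 2` -/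
noncomputable def mv (c : Fin g → Fin 2) (n : Fin g → ℤ) : Fin g → ℝ := fun a => (n a : ℝ) + ((c a : ℕ) : ℝ) / 2

/-- the quadratic form -/
noncomputable def qf (m : Fin g → ℝ) (z : Sy g) : ℂ := ∑ i, ∑ j, (m i : ℂ) * (z s(i, j) * (m j : ℂ))

theorem Th_eq (τ : Sy g) (c : Fin g → Fin 2) :
    Th τ c = ∑' n : Fin g → ℤ, Complex.exp (2 * Real.pi * Complex.I * qf (mv c n) τ) := by
  unfold Th theta
  congr 1
  funext n
  congr 1
  have e : ((fun i => (n i : ℂ) + ((((c i : ℕ) : ℝ) / 2 : ℝ) : ℂ)) ⬝ᵥ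
      (((2 : ℂ) • mat τ) *ᵥ (fun i => (n i : ℂ) + ((((c i : ℕ) : ℝ) / 2 : ℝ) : ℂ)) +
        (2 : ℂ) • fun i => (0 : Fin g → ℂ) i + (((0 : Fin g → ℝ) i : ℝ) : ℂ))) =
      2 * qf (mv c n) τ := by
    simp only [Pi.zero_apply, Complex.ofReal_zero, add_zero]
    have h0 : ((2 : ℂ) • fun _ : Fin g => (0 : ℂ)) = 0 := by funext i; simp
    rw [h0, add_zero, Matrix.smul_mulVec, dotProduct_smul, smul_eq_mul]
    congr 1
    simp only [dotProduct, mulVec, qf, mat, of_apply, mv, Finset.mul_sum]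
    push_cast
    rfl
  rw [e]
  ring

theorem qf_add (m : Fin g → ℝ) (z z' : Sy g) : qf m (z + z') = qf m z + qf m z' := by
  simp only [qf, Pi.add_apply, add_mul, mul_add, Finset.sum_add_distrib]

theorem qf_base (m : Fin g → ℝ) : qf m (base g) = Complex.I * (∑ a, m a ^ 2 : ℝ) := by
  simp only [qf, base, Sym2.mk_isDiag_iff]
  push_cast
  rw [Finset.mul_sum]
  refine Finset.sum_congr rfl fun i _ => ?_
  rw [Finset.sum_eq_single i]
  · simp; ring
  · intro j _ hj
    rw [if_neg (Ne.symm hj)]; ring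
  · simp

theorem qf_single (m : Fin g → ℝ) {i j : Fin g} (hij : i ≠ j) (s : ℂ) :
    qf m (Pi.single s(i, j) s) = 2 * s * (m i * m j : ℝ) := by
  have e : ∀ a b : Fin g, (m a : ℂ) * ((Pi.single s(i, j) s : Sy g) s(a, b) * (m b : ℂ)) =
      (if a = i then (if b = j then s * (m i * m j) else 0) else 0) +
      (if a = j then (if b = i then s * (m i * m j) else 0) else 0) := by
    intro a b
    rw [Pi.single_apply]
    by_cases h : s(a, b) = s(i, j)
    · rw [if_pos h]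
      rw [Sym2.eq_iff] at h
      rcases h with ⟨h1, h2⟩ | ⟨h1, h2⟩
      · subst h1; subst h2
        simp [hij]; ring
      · subst h1; subst h2
        simp [hij.symm]; ring
    · rw [if_neg h]
      rw [Sym2.eq_iff, not_or] at h
      obtain ⟨h1, h2⟩ := h
      by_cases ha : a = i
      · have hb : b ≠ j := fun hb => h1 ⟨ha, hb⟩
        have haj : a ≠ j := by rw [ha]; exact hij
        simp [ha, hb, hij]
      · by_cases ha' : a = j
        · have hb : b ≠ i := fun hb => h2 ⟨ha', hb⟩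
          simp [ha', hb, hij.symm]
        · simp [ha, ha']
  simp only [qf, e, Finset.sum_add_distrib]
  simp
  ring

/-- the point `i · 1_g + s (E_ij + E_ji) + t (E_jk + E_kj + E_kl + E_lk + E_li + E_il)` -/
noncomputable def pt (i j k l : Fin g) (s t : ℝ) : Sy g :=
  base g + Pi.single s(i, j) (s : ℂ) + Pi.single s(j, k) (t : ℂ) + Pi.single s(k, l) (t : ℂ) +
    Pi.single s(l, i) (t : ℂ)

/-- the weight -/
noncomputable def wt (c : Fin g → Fin 2) (n : Fin g → ℤ) : ℝ :=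
  Real.exp (-(2 * Real.pi * ∑ a, mv c n a ^ 2))

theorem Th_pt (c : Fin g → Fin 2) {i j k l : Fin g} (hij : i ≠ j) (hjk : j ≠ k) (hkl : k ≠ l)
    (hli : l ≠ i) (s t : ℝ) :
    Th (pt i j k l s t) c = ∑' n : Fin g → ℤ, (wt c n : ℂ) *
      Complex.exp (Complex.I * ((4 * Real.pi * (s * (mv c n i * mv c n j) + t * (mv c n j * mv c n k)
        + t * (mv c n k * mv c n l) + t * (mv c n l * mv c n i)) : ℝ) : ℂ)) := by
  rw [Th_eq]
  congr 1
  funext n
  rw [pt, qf_add, qf_add, qf_add, qf_add, qf_base, qf_single _ hij, qf_single _ hjk,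
    qf_single _ hkl, qf_single _ hli, wt, Complex.ofReal_exp, ← Complex.exp_add]
  congr 1
  push_cast
  linear_combination (2 * Real.pi * (∑ a, (mv c n a : ℂ) ^ 2)) * Complex.I_sq

/-! ### flips -/

/-- the flip `m_j ↦ -m_j` -/
def flip (c : Fin g → Fin 2) (j : Fin g) : (Fin g → ℤ) ≃ (Fin g → ℤ) where
  toFun n := Function.update n j (-n j - (c j : ℕ))
  invFun n := Function.update n j (-n j - (c j : ℕ))
  left_inv n := by simp
  right_inv n := by simp

theorem mv_flip (c : Fin g → Fin 2) (j : Fin g) (n : Fin g → ℤ) (a : Fin g) :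
    mv c (flip c j n) a = if a = j then -mv c n a else mv c n a := by
  by_cases h : a = j
  · subst h
    rw [if_pos rfl]
    simp only [mv, flip, Equiv.coe_fn_mk, Function.update_self]
    push_cast; ring
  · rw [if_neg h]
    simp only [mv, flip, Equiv.coe_fn_mk, Function.update_of_ne h]

theorem wt_flip (c : Fin g → Fin 2) (j : Fin g) (n : Fin g → ℤ) : wt c (flip c j n) = wt c n := by
  unfold wt
  congr 3
  refine Finset.sum_congr rfl fun a _ => ?_
  rw [mv_flip]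
  split_ifs <;> ring

theorem tsum_flip {ι : Type*} (σ : ι ≃ ι) {F G : ι → ℂ} (hF : Summable F)
    (h : ∀ n, F n + F (σ n) = 2 * Complex.I * G n) : ∑' n, F n = Complex.I * ∑' n, G n := by
  have h1 : ∑' n, F (σ n) = ∑' n, F n := σ.tsum_eq F
  have h2 : Summable fun n => F (σ n) := σ.summable_iff.2 hF
  have h3 : ∑' n, F n + ∑' n, F (σ n) = ∑' n, (2 * Complex.I * G n) := by
    rw [← hF.tsum_add h2]
    congr 1
    funext n; exact h n
  rw [h1, tsum_mul_left] at h3
  linear_combination h3 / 2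

theorem bd_aux (c : Fin 2) (n : ℤ) : |(n : ℝ)| - 1 ≤ ((n : ℝ) + ((c : ℕ) : ℝ) / 2) ^ 2 := by
  fin_cases c
  · simp
    rcases abs_cases (n : ℝ) with ⟨h, _⟩ | ⟨h, _⟩ <;> rw [h] <;> nlinarith [sq_nonneg ((n : ℝ) - 1), sq_nonneg ((n : ℝ) + 1)]
  · simp
    rcases abs_cases (n : ℝ) with ⟨h, h'⟩ | ⟨h, h'⟩ <;> rw [h] <;> nlinarith [sq_nonneg ((n : ℝ) - 1), sq_nonneg ((n : ℝ) + 1)]

theorem exp_le_bd (c : Fin g → Fin 2) (n : Fin g → ℤ) :
    Real.exp (-∑ a, mv c n a ^ 2) ≤ ∏ a, Real.exp (1 - |(n a : ℝ)|) := by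
  rw [← Real.exp_sum]
  apply Real.exp_le_exp.2
  rw [← Finset.sum_neg_distrib]
  refine Finset.sum_le_sum fun a _ => ?_
  have := bd_aux (c a) (n a)
  simp only [mv]
  linarith

theorem wt_pos (c : Fin g → Fin 2) (n : Fin g → ℤ) : 0 < wt c n := Real.exp_pos _

theorem wt_le (c : Fin g → Fin 2) (n : Fin g → ℤ) : wt c n ≤ ∏ a, Real.exp (1 - |(n a : ℝ)|) := by
  refine le_trans ?_ (exp_le_bd c n)
  unfold wt
  apply Real.exp_le_exp.2
  have h1 : 0 ≤ ∑ a, mv c n a ^ 2 := Finset.sum_nonneg fun a _ => sq_nonneg _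
  nlinarith [Real.pi_gt_three]

theorem summable_wt (c : Fin g → Fin 2) : Summable (wt c) :=
  Summable.of_nonneg_of_le (fun n => (wt_pos c n).le) (wt_le c) (summable_bd g)

/-- `m_i² m_j² m_k² m_l²` -/
noncomputable def m4 (c : Fin g → Fin 2) (i j k l : Fin g) (n : Fin g → ℤ) : ℝ :=
  (mv c n i * mv c n j) * (mv c n j * mv c n k) * (mv c n k * mv c n l) * (mv c n l * mv c n i)

theorem m4_eq (c : Fin g → Fin 2) (i j k l : Fin g) (n : Fin g → ℤ) :
    m4 c i j k l n = mv c n i ^ 2 * mv c n j ^ 2 * mv c n k ^ 2 * mv c n l ^ 2 := by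
  unfold m4; ring

theorem m4_nonneg (c : Fin g → Fin 2) (i j k l : Fin g) (n : Fin g → ℤ) : 0 ≤ m4 c i j k l n := by
  rw [m4_eq]; positivity

theorem summable_m4 (c : Fin g → Fin 2) {i j k l : Fin g} (hij : i ≠ j) (hik : i ≠ k) (hil : i ≠ l)
    (hjk : j ≠ k) (hjl : j ≠ l) (hkl : k ≠ l) : Summable fun n => wt c n * m4 c i j k l n := by
  refine Summable.of_nonneg_of_le (fun n => mul_nonneg (wt_pos c n).le (m4_nonneg c i j k l n))
    (fun n => ?_) (summable_bd g)
  refine le_trans ?_ (exp_le_bd c n)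
  have h1 : ∀ x : ℝ, x ^ 2 ≤ Real.exp (x ^ 2) := fun x => by
    have := Real.add_one_le_exp (x ^ 2)
    linarith
  have h2 : m4 c i j k l n ≤ Real.exp (∑ a, mv c n a ^ 2) := by
    rw [m4_eq]
    calc mv c n i ^ 2 * mv c n j ^ 2 * mv c n k ^ 2 * mv c n l ^ 2
        ≤ Real.exp (mv c n i ^ 2) * Real.exp (mv c n j ^ 2) * Real.exp (mv c n k ^ 2) *
          Real.exp (mv c n l ^ 2) := by
          gcongr <;> exact h1 _
      _ = Real.exp (∑ a ∈ ({i, j, k, l} : Finset (Fin g)), mv c n a ^ 2) := by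
          rw [← Real.exp_add, ← Real.exp_add, ← Real.exp_add]
          rw [Finset.sum_insert (by simp [hij, hik, hil]), Finset.sum_insert (by simp [hjk, hjl]),
            Finset.sum_pair hkl]
          congr 1; ring
      _ ≤ Real.exp (∑ a, mv c n a ^ 2) := by
          apply Real.exp_le_exp.2
          exact Finset.sum_le_sum_of_subset_of_nonneg (Finset.subset_univ _)
            fun a _ _ => sq_nonneg _
  calc wt c n * m4 c i j k l n ≤ wt c n * Real.exp (∑ a, mv c n a ^ 2) :=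
        mul_le_mul_of_nonneg_left h2 (wt_pos c n).le
    _ = Real.exp (-((2 * Real.pi - 1) * ∑ a, mv c n a ^ 2)) := by
        unfold wt; rw [← Real.exp_add]; congr 1; ring
    _ ≤ Real.exp (-∑ a, mv c n a ^ 2) := by
        apply Real.exp_le_exp.2
        have h1 : 0 ≤ ∑ a, mv c n a ^ 2 := Finset.sum_nonneg fun a _ => sq_nonneg _
        nlinarith [Real.pi_gt_three]

end Pool.Agent.Helper1K9.TH
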