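import Pool.Agent.Helper1K9.TH.Lim

set_option autoImplicit false

namespace Pool.Agent.Helper1K9.TH

open Matrix Filter Topology

variable {g : ℕ}

open Classical in
/-- A function `f` on an open subset `V` of `A_g(2,4)` is holomorphic if its pull-back to the Siegel
upper half-space (an open subset of the space `Sy g` of symmetric matrices) is holomorphic
(complex analytic) at all points over `V`. -/
def HolOn (V : Set (A24 g)) (f : A24 g → ℂ) : Prop :=
  ∀ τ : Siegel g, A24.mk τ ∈ V →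
    AnalyticAt ℂ (fun s : Sy g => if h : s ∈ Siegel g then f (A24.mk ⟨s, h⟩) else 0) τ.1

/-- Holomorphic functions on open subsets of the projective space `ℙ(ℂ^ι)`, in homogeneous
coordinates: `W` is the open cone over the open subset, and `F` is holomorphic on `W` and
homogeneous of degree zero. -/
structure ProjHol {ι : Type*} [Fintype ι] (W : Set (ι → ℂ)) (F : (ι → ℂ) → ℂ) : Prop where
  isOpen : IsOpen W
  ne_zero : ∀ v ∈ W, v ≠ 0
  smul_mem : ∀ v ∈ W, ∀ c : ℂ, c ≠ 0 → c • v ∈ W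
  smul_eq : ∀ v ∈ W, ∀ c : ℂ, c ≠ 0 → F (c • v) = F v
  analytic : AnalyticOnNhd ℂ F W

/-- The map of local rings `𝒪_{ℙ, Th(x)} → 𝒪_{A_g(2,4), x}` given by the theta map is surjective:
every holomorphic function `f` on a neighbourhood `V` of `x` is, on some smaller neighbourhood
`V'`, of the form `F ∘ Th` with `F` holomorphic on an open subset `ℙ(W)` of projective space. -/
def SurjLocal (x : A24 g) : Prop :=
  ∀ (V : Set (A24 g)) (f : A24 g → ℂ), IsOpen V → x ∈ V → HolOn V f →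
    ∃ (V' : Set (A24 g)) (W : Set ((Fin g → Fin 2) → ℂ)) (F : ((Fin g → Fin 2) → ℂ) → ℂ),
      IsOpen V' ∧ x ∈ V' ∧ V' ⊆ V ∧ ProjHol W F ∧
      ∀ τ : Siegel g, A24.mk τ ∈ V' → Th τ.1 ∈ W ∧ F (Th τ.1) = f (A24.mk τ)

/-- The theta map `A_g(2,4) → ℙ^{2^g - 1}` is injective and is everywhere surjective on local rings
(the second part is necessary for being an isomorphism onto the image). -/
def EmbeddingClaim (g : ℕ) : Prop :=
  (∀ τ τ' : Siegel g, (∃ c : ℂ, c ≠ 0 ∧ Th τ'.1 = c • Th τ.1) → A24.mk τ = A24.mk τ') ∧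
  ∀ x : A24 g, SurjLocal x

/-! ### the local function -/

/-- the product of the four entries along a 4-cycle -/
def cyc (i j k l : Fin g) (s : Sy g) : ℂ := s s(i, j) * s s(j, k) * s s(k, l) * s s(l, i)

theorem base_mem : base g ∈ Siegel g := by
  rw [mem_siegel_iff]
  intro x hx
  have e : ∑ i, ∑ j, x i * ((base g s(i, j)).im * x j) = ∑ i, x i ^ 2 := by
    refine Finset.sum_congr rfl fun i _ => ?_
    rw [Finset.sum_eq_single i]
    · simp [base]; ring
    · intro j _ hj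
      simp [base, Ne.symm hj]
    · simp
  rw [e]
  obtain ⟨i, hi⟩ : ∃ i, x i ≠ 0 := by
    by_contra h
    push Not at h
    exact hx (funext h)
  exact Finset.sum_pos' (fun i _ => sq_nonneg _) ⟨i, Finset.mem_univ i, by positivity⟩

/-- The point `i · 1_g` of the Siegel upper half-space. -/
noncomputable def bp (g : ℕ) : Siegel g := ⟨base g, base_mem⟩

theorem nr_base (hg : 0 < g) : Nr (base g) := by
  intro i j
  have hg' : (0 : ℝ) < g := by exact_mod_cast hg
  simp only [base, Sym2.mk_isDiag_iff, sub_self, norm_zero]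
  positivity

theorem isOpen_nr : IsOpen {s : Sy g | Nr s} := by
  have : {s : Sy g | Nr s} = ⋂ i : Fin g, ⋂ j : Fin g,
      {s : Sy g | ‖s s(i, j) - (if i = j then Complex.I else 0)‖ < 1 / (8 * (g : ℝ))} := by
    ext s; simp [Nr]
  rw [this]
  refine isOpen_iInter_of_finite fun i => isOpen_iInter_of_finite fun j => ?_
  exact isOpen_lt (((continuous_apply _).sub continuous_const).norm) continuous_const

open Classical in
/-- the function on the quotient -/
noncomputable def fq (i j k l : Fin g) (x : A24 g) : ℂ :=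
  if h : ∃ τ : Siegel g, Nr τ.1 ∧ A24.mk τ = x then cyc i j k l (Classical.choose h).1 else 0

theorem fq_eq (hg : 0 < g) (i j k l : Fin g) {τ : Siegel g} (hτ : Nr τ.1) :
    fq i j k l (A24.mk τ) = cyc i j k l τ.1 := by
  have h : ∃ τ' : Siegel g, Nr τ'.1 ∧ A24.mk τ' = A24.mk τ := ⟨τ, hτ, rfl⟩
  unfold fq
  rw [dif_pos h]
  obtain ⟨h1, h2⟩ := Classical.choose_spec h
  obtain ⟨γ, hγ⟩ := A24.mk_eq.1 h2
  obtain ⟨d, hd, hd2⟩ := near hg hγ hτ h1
  simp only [cyc, hd2]
  linear_combination (τ.1 s(i, j) * τ.1 s(j, k) * τ.1 s(k, l) * τ.1 s(l, i)) *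
    (d j * d j * (d k * d k) * (d l * d l) * hd i + d k * d k * (d l * d l) * hd j +
      d l * d l * hd k + hd l)

theorem analytic_cyc (i j k l : Fin g) (s : Sy g) : AnalyticAt ℂ (cyc i j k l) s :=
  (((analyticAt_coord s _).mul (analyticAt_coord s _)).mul (analyticAt_coord s _)).mul
    (analyticAt_coord s _)

theorem holOn_fq (hg : 0 < g) (i j k l : Fin g) :
    HolOn (A24.mk '' {τ : Siegel g | Nr τ.1}) (fq i j k l) := by
  intro τ hτ
  obtain ⟨τ1, h1, h2⟩ := hτ
  obtain ⟨γ, hγ⟩ := A24.mk_eq.1 h2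
  have hA := analyticAt_moeb γ.1.2 τ.2
  have hc : AnalyticAt ℂ (fun s : Sy g => cyc i j k l (sy (moeb γ.1.1 (mat s)))) τ.1 :=
    AnalyticAt.fun_comp (g := cyc i j k l) (f := fun s : Sy g => sy (moeb γ.1.1 (mat s)))
      (analytic_cyc i j k l (sy (moeb γ.1.1 (mat τ.1)))) hA
  refine hc.congr ?_
  have hn : ∀ᶠ s in 𝓝 τ.1, Nr (sy (moeb γ.1.1 (mat s))) := by
    refine hA.continuousAt.eventually (isOpen_nr.mem_nhds ?_)
    show Nr (sy (moeb γ.1.1 (mat τ.1)))
    rw [← coe_smul, hγ]; exact h1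
  filter_upwards [hn, isOpen_siegel.mem_nhds τ.2] with s hs1 hs2
  rw [dif_pos hs2]
  have e : A24.mk ⟨s, hs2⟩ = A24.mk (γ • (⟨s, hs2⟩ : Siegel g)) :=
    (A24.mk_eq.2 ⟨γ, rfl⟩).symm
  rw [e, fq_eq hg i j k l (τ := γ • (⟨s, hs2⟩ : Siegel g)) (by rw [coe_smul]; exact hs1), coe_smul]

theorem tendsto_strict {E : Type*} [NormedAddCommGroup E] [NormedSpace ℂ E] {F : E → ℂ}
    {F' : E →L[ℂ] ℂ} {v0 w : E} (hF : HasStrictFDerivAt F F' v0) {a b : ℝ → E}
    (ha : Tendsto a (𝓝[≠] 0) (𝓝 v0)) (hb : Tendsto b (𝓝[≠] 0) (𝓝 v0))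
    (hab : Tendsto (fun t : ℝ => ((t : ℂ) ^ 4)⁻¹ • (a t - b t)) (𝓝[≠] 0) (𝓝 w)) :
    Tendsto (fun t : ℝ => ((t : ℂ) ^ 4)⁻¹ * (F (a t) - F (b t))) (𝓝[≠] 0) (𝓝 (F' w)) := by
  have h1 := hF.isLittleO.comp_tendsto (ha.prodMk_nhds hb)
  have h2 : (fun t : ℝ => a t - b t) =O[𝓝[≠] 0] fun t : ℝ => ((t : ℂ) ^ 4) := by
    have h3 : (fun t : ℝ => ((t : ℂ) ^ 4)⁻¹ • (a t - b t)) =O[𝓝[≠] 0] fun _ : ℝ => (1 : ℂ) :=
      hab.isBigO_one ℂ
    have h4 := (Asymptotics.isBigO_refl (fun t : ℝ => ((t : ℂ) ^ 4)) (𝓝[≠] 0)).smul h3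
    refine (h4.congr' ?_ ?_)
    · filter_upwards [self_mem_nhdsWithin] with t ht
      have ht1 : (t : ℂ) ^ 4 ≠ 0 := pow_ne_zero _ (by exact_mod_cast ht)
      rw [smul_smul, mul_inv_cancel₀ ht1, one_smul]
    · filter_upwards with t
      simp
  have h5 := (h1.trans_isBigO h2).tendsto_div_nhds_zero
  have h6 := (F'.continuous.tendsto w).comp hab
  have h7 := h5.add h6
  rw [zero_add] at h7
  refine h7.congr' ?_
  filter_upwards with t
  simp only [Function.comp_apply, map_smul, smul_eq_mul]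
  rw [div_eq_inv_mul]
  ring

theorem main (hg : 4 ≤ g) : ¬ SurjLocal (A24.mk (bp g)) := by
  have hg0 : 0 < g := by omega
  set i : Fin g := ⟨0, by omega⟩ with hi
  set j : Fin g := ⟨1, by omega⟩ with hj
  set k : Fin g := ⟨2, by omega⟩ with hk
  set l : Fin g := ⟨3, by omega⟩ with hl
  have hij : i ≠ j := by simp [hi, hj]
  have hik : i ≠ k := by simp [hi, hk]
  have hil : i ≠ l := by simp [hi, hl]
  have hjk : j ≠ k := by simp [hj, hk]
  have hjl : j ≠ l := by simp [hj, hl]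
  have hkl : k ≠ l := by simp [hk, hl]
  intro hS
  have hU : IsOpen {τ : Siegel g | Nr τ.1} := isOpen_nr.preimage continuous_subtype_val
  obtain ⟨V', W, F, hV', hx, hsub, hP, hF⟩ := hS (A24.mk '' {τ : Siegel g | Nr τ.1}) (fq i j k l)
    (isOpenMap_mk _ hU) ⟨bp g, nr_base hg0, rfl⟩ (holOn_fq hg0 i j k l)
  -- the neighbourhood of the base point in the space of symmetric matrices
  have hN : ∀ᶠ s in 𝓝 (base g), ∃ h : s ∈ Siegel g, Nr s ∧ A24.mk ⟨s, h⟩ ∈ V' := by
    have h1 : IsOpen (A24.mk ⁻¹' V' : Set (Siegel g)) := hV'.preimage continuous_mk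
    obtain ⟨O, hO, hO2⟩ := isOpen_induced_iff.1 h1
    have h2 : base g ∈ O := by
      have : bp g ∈ (Subtype.val ⁻¹' O : Set (Siegel g)) := by rw [hO2]; exact hx
      exact this
    filter_upwards [hO.mem_nhds h2, isOpen_siegel.mem_nhds (base_mem (g := g)),
      isOpen_nr.mem_nhds (nr_base hg0)] with s hs1 hs2 hs3
    refine ⟨hs2, hs3, ?_⟩
    have : (⟨s, hs2⟩ : Siegel g) ∈ (Subtype.val ⁻¹' O : Set (Siegel g)) := hs1
    rw [hO2] at this
    exact this
  have hFs : ∀ᶠ s in 𝓝 (base g), F (Th s) = cyc i j k l s := by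
    filter_upwards [hN] with s hs
    obtain ⟨h1, h2, h3⟩ := hs
    rw [(hF ⟨s, h1⟩ h3).2, fq_eq hg0 i j k l (τ := ⟨s, h1⟩) h2]
  have hW : Th (base g) ∈ W := (hF (bp g) hx).1
  have hstr := (hP.analytic _ hW).hasStrictFDerivAt
  -- continuity of the families of points
  have hpt : ∀ (a b c d : Fin g) (u : ℝ),
      Tendsto (fun t : ℝ => pt a b c d (u * t) t) (𝓝[≠] 0) (𝓝 (base g)) := by
    intro a b c d u
    refine Tendsto.mono_left ?_ nhdsWithin_le_nhds
    refine Continuous.tendsto' ?_ _ _ ?_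
    · unfold pt
      have h1 : ∀ (p : Sym2 (Fin g)) (u : ℝ),
          Continuous fun t : ℝ => (Pi.single p ((u * t : ℝ) : ℂ) : Sy g) := by
        intro p u
        exact (continuous_single p).comp (Complex.continuous_ofReal.comp (by fun_prop))
      have h2 : ∀ (p : Sym2 (Fin g)),
          Continuous fun t : ℝ => (Pi.single p ((t : ℝ) : ℂ) : Sy g) := by
        intro p
        exact (continuous_single p).comp Complex.continuous_ofReal
      exact ((((continuous_const.add (h1 _ _)).add (h2 _)).add (h2 _)).add (h2 _))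
    · simp [pt]
  have hTh : ∀ (a b c d : Fin g), a ≠ b → b ≠ c → c ≠ d → d ≠ a → ∀ u : ℝ,
      Tendsto (fun t : ℝ => Th (pt a b c d (u * t) t)) (𝓝[≠] 0) (𝓝 (Th (base g))) := by
    intro a b c d h1 h2 h3 h4 u
    refine Tendsto.mono_left ?_ nhdsWithin_le_nhds
    rw [tendsto_pi_nhds]
    intro e
    exact tendsto_Th e h1 h2 h3 h4 u
  -- the limits of the difference quotients
  have hlim : ∀ (a b c d : Fin g), a ≠ b → a ≠ c → a ≠ d → b ≠ c → b ≠ d → c ≠ d →
      Tendsto (fun t : ℝ => ((t : ℂ) ^ 4)⁻¹ * (F (Th (pt a b c d (1 * t) t)) -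
        F (Th (pt a b c d ((-1) * t) t)))) (𝓝[≠] 0)
        (𝓝 (fderiv ℂ F (Th (base g)) fun e => 2 * (lead e a b c d : ℂ))) := by
    intro a b c d h1 h2 h3 h4 h5 h6
    refine tendsto_strict hstr (hTh a b c d h1 h4 h6 h3.symm 1)
      (hTh a b c d h1 h4 h6 h3.symm (-1)) ?_
    rw [tendsto_pi_nhds]
    intro e
    refine (tendsto_diff e h1 h2 h3 h4 h5 h6).congr' ?_
    filter_upwards with t
    simp only [Pi.smul_apply, Pi.sub_apply, smul_eq_mul, one_mul, neg_mul]
    rw [div_eq_inv_mul]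
  have L1 := hlim i j k l hij hik hil hjk hjl hkl
  have L2 := hlim i k j l hik hij hil hjk.symm hkl hjl
  have hval : ∀ (a b c d : Fin g) (u : ℝ), ∀ᶠ t : ℝ in 𝓝[≠] 0,
      F (Th (pt a b c d (u * t) t)) = cyc i j k l (pt a b c d (u * t) t) := fun a b c d u =>
    (hpt a b c d u).eventually hFs
  have c1 : ∀ s t : ℝ, cyc i j k l (pt i j k l s t) = (s : ℂ) * t * t * t := by
    intro s t
    simp [cyc, pt, base, hij, hik, hil, hjk, hjl, hkl, hij.symm,
      hik.symm, hil.symm, hjk.symm, hjl.symm, hkl.symm]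
  have c2 : ∀ s t : ℝ, cyc i j k l (pt i k j l s t) = 0 := by
    intro s t
    simp [cyc, pt, base, Pi.single_apply, hij, hik, hil, hjk, hjl, hkl, hij.symm,
      hik.symm, hil.symm, hjk.symm, hjl.symm, hkl.symm]
  have M1 : Tendsto (fun t : ℝ => ((t : ℂ) ^ 4)⁻¹ * (F (Th (pt i j k l (1 * t) t)) -
        F (Th (pt i j k l ((-1) * t) t)))) (𝓝[≠] 0) (𝓝 2) := by
    refine (tendsto_const_nhds (x := (2 : ℂ))).congr' ?_
    filter_upwards [hval i j k l 1, hval i j k l (-1), self_mem_nhdsWithin] with t h1 h2 ht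
    have ht1 : (t : ℂ) ≠ 0 := by exact_mod_cast ht
    rw [h1, h2, c1, c1]
    push_cast
    field_simp
    ring
  have M2 : Tendsto (fun t : ℝ => ((t : ℂ) ^ 4)⁻¹ * (F (Th (pt i k j l (1 * t) t)) -
        F (Th (pt i k j l ((-1) * t) t)))) (𝓝[≠] 0) (𝓝 0) := by
    refine (tendsto_const_nhds (x := (0 : ℂ))).congr' ?_
    filter_upwards [hval i k j l 1, hval i k j l (-1)] with t h1 h2
    rw [h1, h2, c2, c2]
    simp
  have e1 := tendsto_nhds_unique L1 M1
  have e2 := tendsto_nhds_unique L2 M2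
  have e3 : (fun e : Fin g → Fin 2 => 2 * (lead e i j k l : ℂ)) = fun e => 2 * (lead e i k j l : ℂ) := by
    funext e
    rw [lead_swap]
  rw [e3, e2] at e1
  norm_num at e1

end Pool.Agent.Helper1K9.TH
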