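import Pool.Agent.Helper1K9.TH.Ana

set_option autoImplicit false

namespace Pool.Agent.Helper1K9.TH

open Matrix Filter Topology

variable {g : ℕ}

/-- the product of two coordinates -/
noncomputable def xx (c : Fin g → Fin 2) (a b : Fin g) (n : Fin g → ℤ) : ℝ := mv c n a * mv c n b

theorem xx_flip (c : Fin g → Fin 2) (j a b : Fin g) (n : Fin g → ℤ) :
    xx c a b (flip c j n) = (if a = j then -1 else 1) * (if b = j then -1 else 1) * xx c a b n := by
  unfold xx
  rw [mv_flip, mv_flip]
  split_ifs <;> ring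

theorem exp_sub (x : ℝ) : Complex.exp (Complex.I * (x : ℂ)) - Complex.exp (Complex.I * ((-x : ℝ) : ℂ)) =
    2 * Complex.I * (Real.sin x : ℂ) := by
  have h1 : Complex.exp (Complex.I * (x : ℂ)) = Real.cos x + Real.sin x * Complex.I := by
    rw [mul_comm, Complex.exp_mul_I]; push_cast; rfl
  have h2 : Complex.exp (Complex.I * ((-x : ℝ) : ℂ)) = Real.cos x - Real.sin x * Complex.I := by
    rw [mul_comm, Complex.exp_mul_I]; push_cast; rw [Complex.cos_neg, Complex.sin_neg]; ring
  rw [h1, h2]; ring

/-- abbreviation: `exp (i x)` -/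
noncomputable def ee (x : ℝ) : ℂ := Complex.exp (Complex.I * (x : ℂ))

theorem ee_sub (x : ℝ) : ee x - ee (-x) = 2 * Complex.I * (Real.sin x : ℂ) := exp_sub x

theorem ee_add (x y : ℝ) : ee (x + y) = ee x * ee y := by
  unfold ee; rw [← Complex.exp_add]; congr 1; push_cast; ring

theorem norm_ee (x : ℝ) : ‖ee x‖ = 1 := by
  unfold ee; rw [mul_comm]; exact Complex.norm_exp_ofReal_mul_I x

theorem summable_of_bd (c : Fin g → Fin 2) (F : (Fin g → ℤ) → ℂ) (h : ∀ n, ‖F n‖ ≤ 1) :
    Summable fun n => (wt c n : ℂ) * F n := by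
  refine Summable.of_norm_bounded (summable_wt c) fun n => ?_
  rw [norm_mul, Complex.norm_real, Real.norm_of_nonneg (wt_pos c n).le]
  exact mul_le_of_le_one_right (wt_pos c n).le (h n)

theorem norm_sin (x : ℝ) : ‖(Real.sin x : ℂ)‖ ≤ 1 := by
  rw [Complex.norm_real, Real.norm_eq_abs]; exact Real.abs_sin_le_one x

/-- The difference of the theta constants at the points `pt (t, t)` and `pt (-t, t)`. -/
theorem diff_eq (c : Fin g → Fin 2) {i j k l : Fin g} (hij : i ≠ j) (hik : i ≠ k) (hil : i ≠ l)
    (hjk : j ≠ k) (hjl : j ≠ l) (hkl : k ≠ l) (t : ℝ) :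
    Th (pt i j k l t t) c - Th (pt i j k l (-t) t) c =
      2 * ∑' n : Fin g → ℤ, (wt c n : ℂ) * ((Real.sin (4 * Real.pi * t * xx c i j n) : ℂ) *
        (Real.sin (4 * Real.pi * t * xx c j k n) : ℂ) *
        (Real.sin (4 * Real.pi * t * xx c k l n) : ℂ) *
        (Real.sin (4 * Real.pi * t * xx c l i n) : ℂ)) := by
  set a : ℝ := 4 * Real.pi * t with ha
  rw [Th_pt c hij hjk hkl hil.symm, Th_pt c hij hjk hkl hil.symm]
  have e1 : (∑' n : Fin g → ℤ, (wt c n : ℂ) *
      Complex.exp (Complex.I * ((4 * Real.pi * (t * (mv c n i * mv c n j) + t * (mv c n j * mv c n k)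
        + t * (mv c n k * mv c n l) + t * (mv c n l * mv c n i)) : ℝ) : ℂ))) =
      ∑' n : Fin g → ℤ, (wt c n : ℂ) * (ee (a * xx c i j n) * ee (a * xx c j k n) *
        ee (a * xx c k l n) * ee (a * xx c l i n)) := by
    congr 1; funext n
    rw [← ee_add, ← ee_add, ← ee_add]
    unfold ee
    congr 4
    simp only [xx, ha]; ring
  have e2 : (∑' n : Fin g → ℤ, (wt c n : ℂ) *
      Complex.exp (Complex.I * ((4 * Real.pi * (-t * (mv c n i * mv c n j) + t * (mv c n j * mv c n k)
        + t * (mv c n k * mv c n l) + t * (mv c n l * mv c n i)) : ℝ) : ℂ))) =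
      ∑' n : Fin g → ℤ, (wt c n : ℂ) * (ee (-(a * xx c i j n)) * ee (a * xx c j k n) *
        ee (a * xx c k l n) * ee (a * xx c l i n)) := by
    congr 1; funext n
    rw [← ee_add, ← ee_add, ← ee_add]
    unfold ee
    congr 4
    simp only [xx, ha]; ring
  rw [e1, e2, ← (summable_of_bd c _ (fun n => by simp [norm_ee])).tsum_sub
    (summable_of_bd c _ (fun n => by simp [norm_ee]))]
  have s0 : ∀ n, (wt c n : ℂ) * (ee (a * xx c i j n) * ee (a * xx c j k n) *
        ee (a * xx c k l n) * ee (a * xx c l i n)) -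
      (wt c n : ℂ) * (ee (-(a * xx c i j n)) * ee (a * xx c j k n) *
        ee (a * xx c k l n) * ee (a * xx c l i n)) = 2 * Complex.I *
      ((wt c n : ℂ) * ((Real.sin (a * xx c i j n) : ℂ) * ee (a * xx c j k n) *
        ee (a * xx c k l n) * ee (a * xx c l i n))) := by
    intro n
    linear_combination ((wt c n : ℂ) * (ee (a * xx c j k n) * ee (a * xx c k l n) *
      ee (a * xx c l i n))) * ee_sub (a * xx c i j n)
  simp only [s0]
  rw [tsum_mul_left]
  have s1 := tsum_flip (flip c j) (F := fun n => (wt c n : ℂ) * ((Real.sin (a * xx c i j n) : ℂ) *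
      ee (a * xx c j k n) * ee (a * xx c k l n) * ee (a * xx c l i n)))
    (G := fun n => (wt c n : ℂ) * ((Real.sin (a * xx c i j n) : ℂ) *
      (Real.sin (a * xx c j k n) : ℂ) * ee (a * xx c k l n) * ee (a * xx c l i n)))
    (summable_of_bd c _ (fun n => by
      rw [norm_mul, norm_mul, norm_mul, norm_ee, norm_ee, norm_ee]
      simp only [mul_one]
      exact norm_sin (a * xx c i j n)))
    (by
      intro n
      simp only [wt_flip, xx_flip, hij, hjk.symm, hjl.symm, if_true, if_false, mul_one, one_mul, neg_mul,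
        mul_neg, Real.sin_neg, Complex.ofReal_neg]
      linear_combination ((wt c n : ℂ) * (Real.sin (a * xx c i j n) : ℂ) *
        (ee (a * xx c k l n) * ee (a * xx c l i n))) * ee_sub (a * xx c j k n))
  have s2 := tsum_flip (flip c k) (F := fun n => (wt c n : ℂ) * ((Real.sin (a * xx c i j n) : ℂ) *
      (Real.sin (a * xx c j k n) : ℂ) * ee (a * xx c k l n) * ee (a * xx c l i n)))
    (G := fun n => (wt c n : ℂ) * ((Real.sin (a * xx c i j n) : ℂ) *
      (Real.sin (a * xx c j k n) : ℂ) * (Real.sin (a * xx c k l n) : ℂ) * ee (a * xx c l i n)))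
    (summable_of_bd c _ (fun n => by
      rw [norm_mul, norm_mul, norm_mul, norm_ee, norm_ee]
      have := norm_sin (a * xx c i j n)
      have := norm_sin (a * xx c j k n)
      simp only [mul_one]
      exact mul_le_one₀ (by assumption) (norm_nonneg _) (by assumption)))
    (by
      intro n
      simp only [wt_flip, xx_flip, hik, hjk, hkl.symm, if_true, if_false, mul_one, one_mul, neg_mul,
        mul_neg, Real.sin_neg, Complex.ofReal_neg]
      linear_combination ((wt c n : ℂ) * (Real.sin (a * xx c i j n) : ℂ) *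
        (Real.sin (a * xx c j k n) : ℂ) * (ee (a * xx c l i n))) * ee_sub (a * xx c k l n))
  have s3 := tsum_flip (flip c l) (F := fun n => (wt c n : ℂ) * ((Real.sin (a * xx c i j n) : ℂ) *
      (Real.sin (a * xx c j k n) : ℂ) * (Real.sin (a * xx c k l n) : ℂ) * ee (a * xx c l i n)))
    (G := fun n => (wt c n : ℂ) * ((Real.sin (a * xx c i j n) : ℂ) *
      (Real.sin (a * xx c j k n) : ℂ) * (Real.sin (a * xx c k l n) : ℂ) *
      (Real.sin (a * xx c l i n) : ℂ)))
    (summable_of_bd c _ (fun n => by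
      rw [norm_mul, norm_mul, norm_mul, norm_ee]
      have := norm_sin (a * xx c i j n)
      have := norm_sin (a * xx c j k n)
      have := norm_sin (a * xx c k l n)
      simp only [mul_one]
      exact mul_le_one₀ (mul_le_one₀ (by assumption) (norm_nonneg _) (by assumption))
        (norm_nonneg _) (by assumption)))
    (by
      intro n
      simp only [wt_flip, xx_flip, hil, hjl, hkl, if_true, if_false, mul_one, one_mul, neg_mul,
        mul_neg, Real.sin_neg, Complex.ofReal_neg]
      linear_combination ((wt c n : ℂ) * (Real.sin (a * xx c i j n) : ℂ) *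
        (Real.sin (a * xx c j k n) : ℂ) * (Real.sin (a * xx c k l n) : ℂ)) *
        ee_sub (a * xx c l i n))
  rw [s1, s2, s3]
  linear_combination (2 * (Complex.I ^ 2 - 1)) * (∑' n : Fin g → ℤ, (wt c n : ℂ) * ((Real.sin (a * xx c i j n) : ℂ) *
      (Real.sin (a * xx c j k n) : ℂ) * (Real.sin (a * xx c k l n) : ℂ) *
      (Real.sin (a * xx c l i n) : ℂ))) * Complex.I_sq

/-- the leading coefficient -/
noncomputable def lead (c : Fin g → Fin 2) (i j k l : Fin g) : ℝ :=
  ∑' n : Fin g → ℤ, wt c n * ((4 * Real.pi) ^ 4 * m4 c i j k l n)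

theorem lead_swap (c : Fin g → Fin 2) (i j k l : Fin g) : lead c i j k l = lead c i k j l := by
  unfold lead
  congr 1
  funext n
  rw [m4_eq, m4_eq]; ring

theorem tendsto_sin_div (x : ℝ) :
    Tendsto (fun t : ℝ => Real.sin (4 * Real.pi * t * x) / t) (𝓝[≠] 0) (𝓝 (4 * Real.pi * x)) := by
  have h1 : HasDerivAt (fun t : ℝ => Real.sin (4 * Real.pi * t * x)) (4 * Real.pi * x) 0 := by
    have h2 : HasDerivAt (fun t : ℝ => 4 * Real.pi * t * x) (4 * Real.pi * x) 0 := by
      have := ((hasDerivAt_id (0 : ℝ)).const_mul (4 * Real.pi)).mul_const x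
      simpa using this
    have h3 := h2.sin
    simpa using h3
  have h4 := h1.tendsto_slope
  refine h4.congr' ?_
  filter_upwards [self_mem_nhdsWithin] with t ht
  rw [slope_def_field]
  simp

theorem tendsto_diff (c : Fin g → Fin 2) {i j k l : Fin g} (hij : i ≠ j) (hik : i ≠ k) (hil : i ≠ l)
    (hjk : j ≠ k) (hjl : j ≠ l) (hkl : k ≠ l) :
    Tendsto (fun t : ℝ => (Th (pt i j k l t t) c - Th (pt i j k l (-t) t) c) / (t : ℂ) ^ 4)
      (𝓝[≠] 0) (𝓝 (2 * (lead c i j k l : ℂ))) := by
  have hT : Tendsto (fun t : ℝ => ∑' n : Fin g → ℤ, wt c n *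
      ((Real.sin (4 * Real.pi * t * xx c i j n) / t) *
        (Real.sin (4 * Real.pi * t * xx c j k n) / t) *
        (Real.sin (4 * Real.pi * t * xx c k l n) / t) *
        (Real.sin (4 * Real.pi * t * xx c l i n) / t)))
      (𝓝[≠] 0) (𝓝 (lead c i j k l)) := by
    unfold lead
    refine tendsto_tsum_of_dominated_convergence
      (bound := fun n => wt c n * ((4 * Real.pi) ^ 4 * m4 c i j k l n)) ?_ ?_ ?_
    · have := (summable_m4 c hij hik hil hjk hjl hkl).mul_left ((4 * Real.pi) ^ 4)
      refine this.congr fun n => by ring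
    · intro n
      have h := ((((tendsto_sin_div (xx c i j n)).mul (tendsto_sin_div (xx c j k n))).mul
        (tendsto_sin_div (xx c k l n))).mul (tendsto_sin_div (xx c l i n))).const_mul (wt c n)
      have e : wt c n * (4 * Real.pi * xx c i j n * (4 * Real.pi * xx c j k n) *
          (4 * Real.pi * xx c k l n) * (4 * Real.pi * xx c l i n)) =
          wt c n * ((4 * Real.pi) ^ 4 * m4 c i j k l n) := by
        unfold xx m4; ring
      rw [e] at h
      exact h
    · filter_upwards [self_mem_nhdsWithin] with t ht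
      intro n
      have ht0 : t ≠ 0 := ht
      have hb : ∀ x : ℝ, |Real.sin (4 * Real.pi * t * x) / t| ≤ 4 * Real.pi * |x| := by
        intro x
        rw [abs_div, div_le_iff₀ (abs_pos.2 ht0)]
        calc |Real.sin (4 * Real.pi * t * x)| ≤ |4 * Real.pi * t * x| := Real.abs_sin_le_abs
          _ = 4 * Real.pi * |x| * |t| := by
              rw [abs_mul, abs_mul, abs_mul, abs_of_pos Real.pi_pos]
              norm_num; ring
      rw [Real.norm_eq_abs, abs_mul, abs_of_pos (wt_pos c n), abs_mul, abs_mul, abs_mul]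
      refine mul_le_mul_of_nonneg_left ?_ (wt_pos c n).le
      have e : (4 * Real.pi) ^ 4 * m4 c i j k l n = 4 * Real.pi * |xx c i j n| *
          (4 * Real.pi * |xx c j k n|) * (4 * Real.pi * |xx c k l n|) *
          (4 * Real.pi * |xx c l i n|) := by
        have h0 := abs_of_nonneg (m4_nonneg c i j k l n)
        have h1 : |m4 c i j k l n| = |xx c i j n| * |xx c j k n| * |xx c k l n| * |xx c l i n| := by
          unfold m4 xx
          rw [abs_mul, abs_mul, abs_mul (mv c n i * mv c n j)]
        rw [← h0, h1]; ring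
      rw [e]
      have hp := Real.pi_pos
      gcongr <;> exact hb _
  have hT2 := ((Complex.continuous_ofReal.tendsto _).comp hT).const_mul 2
  refine hT2.congr' ?_
  filter_upwards [self_mem_nhdsWithin] with t ht
  have ht0 : t ≠ 0 := ht
  have ht1 : (t : ℂ) ≠ 0 := by exact_mod_cast ht0
  rw [diff_eq c hij hik hil hjk hjl hkl]
  simp only [Function.comp_apply, Complex.ofReal_tsum]
  rw [mul_div_assoc, div_eq_mul_inv _ ((t : ℂ) ^ 4), ← tsum_mul_right]
  congr 2
  funext n
  push_cast
  field_simp

/-- continuity of the theta constants along the two families -/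
theorem tendsto_Th (c : Fin g → Fin 2) {i j k l : Fin g} (hij : i ≠ j) (hjk : j ≠ k) (hkl : k ≠ l)
    (hli : l ≠ i) (u : ℝ) :
    Tendsto (fun t : ℝ => Th (pt i j k l (u * t) t) c) (𝓝 0) (𝓝 (Th (base g) c)) := by
  have hb : Th (base g) c = Th (pt i j k l 0 0) c := by
    congr 1
    simp [pt]
  rw [hb]
  simp only [Th_pt c hij hjk hkl hli]
  refine tendsto_tsum_of_dominated_convergence (bound := wt c) (summable_wt c) ?_ ?_
  · intro n
    refine Tendsto.const_mul _ ?_
    refine Continuous.tendsto' ?_ _ _ ?_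
    · fun_prop
    · simp
  · filter_upwards with t
    intro n
    have := norm_ee (4 * Real.pi * (u * t * (mv c n i * mv c n j) + t * (mv c n j * mv c n k)
        + t * (mv c n k * mv c n l) + t * (mv c n l * mv c n i)))
    unfold ee at this
    rw [norm_mul, this, mul_one, Complex.norm_real, Real.norm_of_nonneg (wt_pos c n).le]

end Pool.Agent.Helper1K9.TH
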