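import Pool.Agent.Helper1K9.TH.Top

set_option autoImplicit false

namespace Pool.Agent.Helper1K9.TH

open Matrix

variable {g : ℕ}

/-- `τ` is near `i · 1_g` -/
def Nr (τ : Sy g) : Prop :=
  ∀ i j : Fin g, ‖τ s(i, j) - (if i = j then Complex.I else 0)‖ < 1 / (8 * (g : ℝ))

/-- `Im (w* T w) ≥ (1 - g r) ∑ |w_k|²` -/
theorem form_lower {τ : Sy g} (h : Nr τ) (w : Fin g → ℂ) :
    (7 / 8) * ∑ k, ‖w k‖ ^ 2 ≤ (star w ⬝ᵥ (mat τ *ᵥ w)).im := by
  rcases Nat.eq_zero_or_pos g with hg | hg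
  · subst hg
    simp
  have hg' : (0 : ℝ) < g := by exact_mod_cast hg
  set E : Fin g → Fin g → ℂ := fun i j => τ s(i, j) - (if i = j then Complex.I else 0) with hE
  have h1 : star w ⬝ᵥ (mat τ *ᵥ w) = Complex.I * ∑ k, (‖w k‖ ^ 2 : ℝ) +
      ∑ i, ∑ j, star (w i) * (E i j * w j) := by
    have e : ∀ i j, τ s(i, j) = (if i = j then Complex.I else 0) + E i j := by
      intro i j; simp [hE]
    simp only [dotProduct, mulVec, mat, of_apply, Pi.star_apply, Finset.mul_sum]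
    rw [Complex.ofReal_sum, Finset.mul_sum, ← Finset.sum_add_distrib]
    refine Finset.sum_congr rfl fun i _ => ?_
    simp only [e, add_mul, mul_add, Finset.sum_add_distrib]
    congr 1
    rw [Finset.sum_eq_single i]
    · rw [if_pos rfl]
      have : ((‖w i‖ ^ 2 : ℝ) : ℂ) = star (w i) * w i := by
        rw [Complex.star_def, Complex.conj_mul']; push_cast; rfl
      rw [this]; ring
    · intro j _ hj
      rw [if_neg (Ne.symm hj)]; ring
    · simp
  have h2 : ‖∑ i, ∑ j, star (w i) * (E i j * w j)‖ ≤ (1 / 8) * ∑ k, ‖w k‖ ^ 2 := by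
    calc ‖∑ i, ∑ j, star (w i) * (E i j * w j)‖
        ≤ ∑ i, ∑ j, ‖w i‖ * (1 / (8 * (g : ℝ)) * ‖w j‖) := by
          refine (norm_sum_le _ _).trans (Finset.sum_le_sum fun i _ => ?_)
          refine (norm_sum_le _ _).trans (Finset.sum_le_sum fun j _ => ?_)
          rw [norm_mul, norm_mul, norm_star]
          exact mul_le_mul_of_nonneg_left
            (mul_le_mul_of_nonneg_right (h i j).le (norm_nonneg _)) (norm_nonneg _)
      _ = 1 / (8 * (g : ℝ)) * (∑ k, ‖w k‖) ^ 2 := by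
          rw [pow_two, Finset.sum_mul_sum, Finset.mul_sum]
          refine Finset.sum_congr rfl fun i _ => ?_
          rw [Finset.mul_sum]
          refine Finset.sum_congr rfl fun j _ => ?_
          ring
      _ ≤ 1 / (8 * (g : ℝ)) * (g * ∑ k, ‖w k‖ ^ 2) := by
          refine mul_le_mul_of_nonneg_left ?_ (by positivity)
          have := sq_sum_le_card_mul_sum_sq (s := (Finset.univ : Finset (Fin g)))
            (f := fun k => ‖w k‖)
          simpa using this
      _ = (1 / 8) * ∑ k, ‖w k‖ ^ 2 := by field_simp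
  rw [h1, Complex.add_im]
  have h3 : (Complex.I * ((∑ k, ‖w k‖ ^ 2 : ℝ) : ℂ)).im = ∑ k, ‖w k‖ ^ 2 := by
    rw [Complex.I_mul_im, Complex.ofReal_re]
  rw [h3]
  have h4 := Complex.abs_im_le_norm (∑ i, ∑ j, star (w i) * (E i j * w j))
  have h5 := (abs_le.1 (h4.trans h2)).1
  linarith

theorem near (hg : 0 < g) {τ τ' : Siegel g} {γ : Gam g} (h : γ • τ = τ') (hτ : Nr τ.1)
    (hτ' : Nr τ'.1) :
    ∃ d : Fin g → ℂ, (∀ i, d i * d i = 1) ∧ ∀ i j, τ'.1 s(i, j) = d i * d j * τ.1 s(i, j) := by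
  have hg' : (0 : ℝ) < g := by exact_mod_cast hg
  have hg1 : (1 : ℝ) ≤ g := by exact_mod_cast hg
  have hr : 1 / (8 * (g : ℝ)) ≤ 1 / 8 := by
    apply one_div_le_one_div_of_le (by norm_num)
    linarith
  set r : ℝ := 1 / (8 * (g : ℝ)) with hrdef
  have hgr : (g : ℝ) * r = 1 / 8 := by rw [hrdef]; field_simp
  obtain ⟨⟨γ, hγs⟩, hγ⟩ := γ
  have hmat : mat τ'.1 = moeb γ (mat τ.1) := by rw [← h, mat_smul]
  obtain ⟨a1, a2, b1, c1, d1, d2⟩ := even_block hγ.1
  -- column bound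
  have hcol : ∀ j, ∑ k, ‖den γ (mat τ.1) k j‖ ^ 2 ≤ 9 / 7 := by
    intro j
    have e1 := form_moeb hγs (mat_symm τ.1) τ.2 (Pi.single j 1)
    have e2 : den γ (mat τ.1) *ᵥ (Pi.single j 1) = fun k => den γ (mat τ.1) k j := by
      rw [Matrix.mulVec_single_one]; rfl
    rw [e2, ← hmat] at e1
    have e3 := form_lower hτ' (fun k => den γ (mat τ.1) k j)
    rw [e1] at e3
    have e4 : (star (Pi.single j 1 : Fin g → ℂ) ⬝ᵥ (mat τ.1 *ᵥ (Pi.single j 1))).im ≤ 9 / 8 := by
      rw [Matrix.mulVec_single_one]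
      have e5 : star (Pi.single j 1 : Fin g → ℂ) ⬝ᵥ (mat τ.1).col j = τ.1 s(j, j) := by
        rw [← Pi.single_star, star_one, single_dotProduct]
        simp [mat, Matrix.col]
      rw [e5]
      have e6 := hτ j j
      rw [if_pos rfl] at e6
      have e7 := (Complex.abs_im_le_norm (τ.1 s(j, j) - Complex.I)).trans e6.le
      rw [Complex.sub_im, Complex.I_im] at e7
      have := (abs_le.1 e7).2
      linarith
    linarith
  -- c = 0
  have hden : ∀ k j, den γ (mat τ.1) k j = Complex.I * (γ.toBlocks₂₁ k j : ℂ) +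
      (γ.toBlocks₂₂ k j : ℂ) + ∑ l, (γ.toBlocks₂₁ k l : ℂ) *
        (τ.1 s(l, j) - (if l = j then Complex.I else 0)) := by
    intro k j
    have e : ∀ l, (γ.toBlocks₂₁ k l : ℂ) * (τ.1 s(l, j) - (if l = j then Complex.I else 0)) =
        (γ.toBlocks₂₁ k l : ℂ) * τ.1 s(l, j) -
        (if l = j then (γ.toBlocks₂₁ k l : ℂ) * Complex.I else 0) := by
      intro l; split_ifs <;> ring
    simp only [e, Finset.sum_sub_distrib, Finset.sum_ite_eq', Finset.mem_univ, if_true]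
    simp only [den, Matrix.add_apply, Matrix.mul_apply, toC, Matrix.map_apply, mat, of_apply]
    ring
  have hcz : ∀ k j, γ.toBlocks₂₁ k j = 0 := by
    have : Nonempty (Fin g) := ⟨⟨0, hg⟩⟩
    obtain ⟨⟨k0, j0⟩, hmax⟩ := Finite.exists_max
      (fun p : Fin g × Fin g => |(γ.toBlocks₂₁ p.1 p.2 : ℝ)|)
    have hC : |(γ.toBlocks₂₁ k0 j0 : ℝ)| < 2 := by
      set C : ℝ := |(γ.toBlocks₂₁ k0 j0 : ℝ)| with hCdef
      have e1 : (den γ (mat τ.1) k0 j0).im = (γ.toBlocks₂₁ k0 j0 : ℝ) +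
          (∑ l, (γ.toBlocks₂₁ k0 l : ℂ) *
            (τ.1 s(l, j0) - (if l = j0 then Complex.I else 0))).im := by
        rw [hden]
        simp
      have e2 : ‖∑ l, (γ.toBlocks₂₁ k0 l : ℂ) *
          (τ.1 s(l, j0) - (if l = j0 then Complex.I else 0))‖ ≤ (1 / 8) * C := by
        calc _ ≤ ∑ l : Fin g, C * r := by
              refine (norm_sum_le _ _).trans (Finset.sum_le_sum fun l _ => ?_)
              rw [norm_mul]
              refine mul_le_mul ?_ (hτ l j0).le (norm_nonneg _) (abs_nonneg _)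
              have := hmax (k0, l)
              simpa using this
          _ = (1 / 8) * C := by
              rw [Finset.sum_const, Finset.card_univ, Fintype.card_fin, nsmul_eq_mul, ← hgr]
              ring
      have e3 : ‖den γ (mat τ.1) k0 j0‖ ^ 2 ≤ 9 / 7 :=
        (Finset.single_le_sum (f := fun k => ‖den γ (mat τ.1) k j0‖ ^ 2)
          (fun k _ => by positivity) (Finset.mem_univ k0)).trans (hcol j0)
      have e4 : ‖den γ (mat τ.1) k0 j0‖ ≤ 8 / 7 := by
        nlinarith [norm_nonneg (den γ (mat τ.1) k0 j0)]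
      have e5 := Complex.abs_im_le_norm (den γ (mat τ.1) k0 j0)
      have e6 := (Complex.abs_im_le_norm _).trans e2
      have e7 : C ≤ 8 / 7 + (1 / 8) * C := by
        have : (γ.toBlocks₂₁ k0 j0 : ℝ) = (den γ (mat τ.1) k0 j0).im -
          (∑ l, (γ.toBlocks₂₁ k0 l : ℂ) *
            (τ.1 s(l, j0) - (if l = j0 then Complex.I else 0))).im := by rw [e1]; ring
        calc C = |(den γ (mat τ.1) k0 j0).im -
          (∑ l, (γ.toBlocks₂₁ k0 l : ℂ) *
            (τ.1 s(l, j0) - (if l = j0 then Complex.I else 0))).im| := by rw [hCdef, this]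
          _ ≤ |(den γ (mat τ.1) k0 j0).im| + |(∑ l, (γ.toBlocks₂₁ k0 l : ℂ) *
            (τ.1 s(l, j0) - (if l = j0 then Complex.I else 0))).im| := abs_sub _ _
          _ ≤ 8 / 7 + (1 / 8) * C := add_le_add (e5.trans e4) e6
      linarith
    have hk0 : γ.toBlocks₂₁ k0 j0 = 0 := by
      have e : (2 : ℤ) ∣ γ.toBlocks₂₁ k0 j0 := c1 k0 j0
      have h1 : |γ.toBlocks₂₁ k0 j0| < 2 := by exact_mod_cast hC
      obtain ⟨h1a, h1b⟩ := abs_lt.1 h1
      obtain ⟨m, hm⟩ := e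
      rw [hm] at h1a h1b ⊢
      have hm0 : m = 0 := by omega
      rw [hm0, mul_zero]
    intro k j
    have := hmax (k, j)
    simp only [hk0, Int.cast_zero, abs_zero] at this
    have h0 := le_antisymm this (abs_nonneg _)
    rw [abs_eq_zero] at h0
    exact_mod_cast h0
  have hden2 : ∀ k j, den γ (mat τ.1) k j = (γ.toBlocks₂₂ k j : ℂ) := by
    intro k j
    rw [hden]
    simp [hcz]
  have hcol2 : ∀ j, ∑ k, (γ.toBlocks₂₂ k j) ^ 2 ≤ 1 := by
    intro j
    have e := hcol j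
    simp only [hden2] at e
    have e2 : ∑ k, ‖(γ.toBlocks₂₂ k j : ℂ)‖ ^ 2 = ((∑ k, (γ.toBlocks₂₂ k j) ^ 2 : ℤ) : ℝ) := by
      push_cast
      refine Finset.sum_congr rfl fun k _ => ?_
      rw [Complex.norm_intCast, sq_abs]
    rw [e2] at e
    have e3 : ((∑ k, (γ.toBlocks₂₂ k j) ^ 2 : ℤ) : ℝ) < 2 := by linarith
    have e4 : (∑ k, (γ.toBlocks₂₂ k j) ^ 2 : ℤ) < 2 := by exact_mod_cast e3
    omega
  have hdd : ∀ j, (γ.toBlocks₂₂ j j) ^ 2 = 1 := by
    intro j
    have e1 : (γ.toBlocks₂₂ j j) ^ 2 ≤ 1 :=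
      (Finset.single_le_sum (f := fun k => (γ.toBlocks₂₂ k j) ^ 2)
        (fun k _ => by positivity) (Finset.mem_univ j)).trans (hcol2 j)
    have e2 := d2 j
    have e3 : γ.toBlocks₂₂ j j ≠ 0 := by intro h0; rw [h0] at e2; omega
    have e4 : 0 < (γ.toBlocks₂₂ j j) ^ 2 := by positivity
    omega
  have hdo : ∀ k j, k ≠ j → γ.toBlocks₂₂ k j = 0 := by
    intro k j hkj
    have e1 : (γ.toBlocks₂₂ k j) ^ 2 + (γ.toBlocks₂₂ j j) ^ 2 ≤ 1 := by
      have := Finset.sum_le_sum_of_subset_of_nonneg (f := fun k => (γ.toBlocks₂₂ k j) ^ 2)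
        (Finset.subset_univ {k, j}) (fun k _ _ => by positivity)
      rw [Finset.sum_pair hkj] at this
      exact this.trans (hcol2 j)
    rw [hdd j] at e1
    have e2 : (γ.toBlocks₂₂ k j) ^ 2 ≤ 0 := by linarith
    exact pow_eq_zero_iff (n := 2) (by norm_num) |>.1 (le_antisymm e2 (by positivity))
  -- a = d
  obtain ⟨r1, r2, r3⟩ := rels hγs
  have hc0 : γ.toBlocks₂₁ = 0 := by ext k j; exact hcz k j
  rw [hc0, transpose_zero, Matrix.zero_mul, sub_zero] at r3
  have ha : ∀ i j, γ.toBlocks₁₁ j i = if i = j then γ.toBlocks₂₂ j j else 0 := by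
    intro i j
    have e := congrFun (congrFun r3 i) j
    rw [Matrix.mul_apply, Finset.sum_eq_single j] at e
    · rw [Matrix.transpose_apply, Matrix.one_apply] at e
      have e2 : γ.toBlocks₁₁ j i * γ.toBlocks₂₂ j j * γ.toBlocks₂₂ j j = γ.toBlocks₁₁ j i := by
        rw [mul_assoc, ← pow_two, hdd, mul_one]
      rw [← e2, e]
      split_ifs <;> simp
    · intro k _ hk
      rw [hdo k j hk, mul_zero]
    · simp
  -- b = 0
  have hM := moeb_mul_den hγs (mat_symm τ.1) τ.2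
  rw [← hmat] at hM
  have hMij : ∀ i j, τ'.1 s(i, j) * (γ.toBlocks₂₂ j j : ℂ) =
      (γ.toBlocks₂₂ i i : ℂ) * τ.1 s(i, j) + (γ.toBlocks₁₂ i j : ℂ) := by
    intro i j
    have e := congrFun (congrFun hM i) j
    rw [Matrix.mul_apply, Finset.sum_eq_single j, hden2] at e
    · rw [num, Matrix.add_apply, Matrix.mul_apply, Finset.sum_eq_single i] at e
      · simp only [mat, of_apply, toC, Matrix.map_apply] at e
        rw [e, ha i i, if_pos rfl]
      · intro k _ hk
        simp only [toC, Matrix.map_apply]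
        rw [ha k i, if_neg hk]; simp
      · simp
    · intro k _ hk
      rw [hden2, hdo k j hk]; simp
    · simp
  have hdn : ∀ j, ‖(γ.toBlocks₂₂ j j : ℂ)‖ = 1 := by
    intro j
    have e := hdd j
    have e2 : ‖(γ.toBlocks₂₂ j j : ℂ)‖ ^ 2 = 1 := by
      rw [Complex.norm_intCast, sq_abs]; exact_mod_cast e
    exact (pow_eq_one_iff_of_nonneg (norm_nonneg _) (by norm_num)).1 e2
  have hb : ∀ i j, γ.toBlocks₁₂ i j = 0 := by
    intro i j
    have e1 : (γ.toBlocks₁₂ i j : ℂ) =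
        (τ'.1 s(i, j) - (if i = j then Complex.I else 0)) * (γ.toBlocks₂₂ j j : ℂ) -
        (γ.toBlocks₂₂ i i : ℂ) * (τ.1 s(i, j) - (if i = j then Complex.I else 0)) := by
      have e := hMij i j
      by_cases hij : i = j
      · subst hij
        rw [if_pos rfl]
        linear_combination -e
      · rw [if_neg hij]
        linear_combination -e
    have e2 : ‖(γ.toBlocks₁₂ i j : ℂ)‖ < 1 := by
      rw [e1]
      calc _ ≤ ‖(τ'.1 s(i, j) - (if i = j then Complex.I else 0)) * (γ.toBlocks₂₂ j j : ℂ)‖ +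
          ‖(γ.toBlocks₂₂ i i : ℂ) * (τ.1 s(i, j) - (if i = j then Complex.I else 0))‖ :=
            norm_sub_le _ _
        _ ≤ r + r := by
            rw [norm_mul, norm_mul, hdn, hdn, mul_one, one_mul]
            exact add_le_add (hτ' i j).le (hτ i j).le
        _ < 1 := by linarith
    rw [Complex.norm_intCast] at e2
    have e3 : |γ.toBlocks₁₂ i j| < 1 := by exact_mod_cast e2
    exact Int.abs_lt_one_iff.1 e3
  refine ⟨fun i => (γ.toBlocks₂₂ i i : ℂ), fun i => ?_, fun i j => ?_⟩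
  · show (γ.toBlocks₂₂ i i : ℂ) * (γ.toBlocks₂₂ i i : ℂ) = 1
    rw [← pow_two]; exact_mod_cast hdd i
  · have e := hMij i j
    rw [hb i j] at e
    have e2 : (γ.toBlocks₂₂ j j : ℂ) * (γ.toBlocks₂₂ j j : ℂ) = 1 := by
      rw [← pow_two]; exact_mod_cast hdd j
    calc τ'.1 s(i, j) = τ'.1 s(i, j) * ((γ.toBlocks₂₂ j j : ℂ) * (γ.toBlocks₂₂ j j : ℂ)) := by
          rw [e2, mul_one]
      _ = (τ'.1 s(i, j) * (γ.toBlocks₂₂ j j : ℂ)) * (γ.toBlocks₂₂ j j : ℂ) := by ring
      _ = (γ.toBlocks₂₂ i i : ℂ) * (γ.toBlocks₂₂ j j : ℂ) * τ.1 s(i, j) := by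
          rw [e]; push_cast; ring

end Pool.Agent.Helper1K9.TH
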