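import Pool.Agent.Helper1K9.TH.Act2

set_option autoImplicit false

namespace Pool.Agent.Helper1K9.TH

open Matrix Filter Topology

variable {g : ℕ}

theorem mem_siegel_iff {s : Sy g} : s ∈ Siegel g ↔
    ∀ x : Fin g → ℝ, x ≠ 0 → 0 < ∑ i, ∑ j, x i * ((s s(i, j)).im * x j) := by
  have hx : ∀ x : Fin g → ℝ, star x ⬝ᵥ (((mat s).map Complex.im) *ᵥ x) =
      ∑ i, ∑ j, x i * ((s s(i, j)).im * x j) := by
    intro x
    simp [dotProduct, mulVec, mat, Finset.mul_sum]
  constructor
  · intro h x hx0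
    have h' := (Matrix.posDef_iff_dotProduct_mulVec.1 h).2 hx0
    rwa [hx] at h'
  · intro h
    show ((mat s).map Complex.im).PosDef
    rw [Matrix.posDef_iff_dotProduct_mulVec]
    refine ⟨?_, fun x hx0 => ?_⟩
    · ext i j
      have := symm_apply (mat_symm s) i j
      simp [this]
    · rw [hx]; exact h x hx0

theorem isOpen_siegel : IsOpen (Siegel g) := by
  rw [isOpen_iff_mem_nhds]
  intro τ hτ
  rw [mem_siegel_iff] at hτ
  have hK : IsCompact (Metric.sphere (0 : Fin g → ℝ) 1) := isCompact_sphere _ _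
  have hc : Continuous fun z : Sy g × (Fin g → ℝ) =>
      ∑ i, ∑ j, z.2 i * ((z.1 s(i, j)).im * z.2 j) := by
    refine continuous_finsetSum _ fun i _ => continuous_finsetSum _ fun j _ => ?_
    refine ((continuous_apply i).comp continuous_snd).mul (Continuous.mul ?_ ?_)
    · exact Complex.continuous_im.comp ((continuous_apply _).comp continuous_fst)
    · exact (continuous_apply j).comp continuous_snd
  have hev := hK.eventually_forall_of_forall_eventually
    (P := fun (s : Sy g) (x : Fin g → ℝ) => 0 < ∑ i, ∑ j, x i * ((s s(i, j)).im * x j))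
    (x₀ := τ) (by
      intro x hx
      have hx0 : x ≠ 0 := by
        rintro rfl
        simp at hx
      exact (hc.tendsto (τ, x)).eventually_const_lt (hτ x hx0))
  refine Filter.mem_of_superset hev ?_
  intro s hs
  rw [mem_siegel_iff]
  intro x hx
  have hn : 0 < ‖x‖ := norm_pos_iff.2 hx
  have h1 : 0 < ∑ i, ∑ j, ((‖x‖)⁻¹ • x) i * ((s s(i, j)).im * ((‖x‖)⁻¹ • x) j) :=
    hs ((‖x‖)⁻¹ • x) (by
    rw [mem_sphere_zero_iff_norm, norm_smul, norm_inv, norm_norm, inv_mul_cancel₀ hn.ne'])
  have h2 : ∑ i, ∑ j, ((‖x‖)⁻¹ • x) i * ((s s(i, j)).im * ((‖x‖)⁻¹ • x) j) =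
      (‖x‖)⁻¹ ^ 2 * ∑ i, ∑ j, x i * ((s s(i, j)).im * x j) := by
    rw [Finset.mul_sum]
    refine Finset.sum_congr rfl fun i _ => ?_
    rw [Finset.mul_sum]
    refine Finset.sum_congr rfl fun j _ => ?_
    simp only [Pi.smul_apply, smul_eq_mul]
    ring
  rw [h2] at h1
  exact (pos_iff_pos_of_mul_pos h1).1 (by positivity)

/-! ### analyticity of the action -/

theorem analyticAt_det {n : ℕ} {E : Type*} [NormedAddCommGroup E] [NormedSpace ℂ E]
    {A : E → Matrix (Fin n) (Fin n) ℂ} {s : E}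
    (hA : ∀ i j, AnalyticAt ℂ (fun x => A x i j) s) : AnalyticAt ℂ (fun x => (A x).det) s := by
  simp only [Matrix.det_apply']
  refine Finset.analyticAt_fun_sum _ fun σ _ => ?_
  exact analyticAt_const.mul (Finset.analyticAt_fun_prod _ fun i _ => hA _ _)

theorem analyticAt_mul {n : ℕ} {E : Type*} [NormedAddCommGroup E] [NormedSpace ℂ E]
    {A B : E → Matrix (Fin n) (Fin n) ℂ} {s : E}
    (hA : ∀ i j, AnalyticAt ℂ (fun x => A x i j) s)
    (hB : ∀ i j, AnalyticAt ℂ (fun x => B x i j) s) :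
    ∀ i j, AnalyticAt ℂ (fun x => (A x * B x) i j) s := by
  intro i j
  simp only [Matrix.mul_apply]
  exact Finset.analyticAt_fun_sum _ fun k _ => (hA _ _).mul (hB _ _)

theorem analyticAt_inv {n : ℕ} {E : Type*} [NormedAddCommGroup E] [NormedSpace ℂ E]
    {A : E → Matrix (Fin n) (Fin n) ℂ} {s : E}
    (hA : ∀ i j, AnalyticAt ℂ (fun x => A x i j) s) (h0 : (A s).det ≠ 0) :
    ∀ i j, AnalyticAt ℂ (fun x => (A x)⁻¹ i j) s := by
  intro i j
  have h1 : (fun x => (A x)⁻¹ i j) = fun x => ((A x).det)⁻¹ * (A x).adjugate i j := by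
    funext x
    rw [Matrix.inv_def, Matrix.smul_apply, Ring.inverse_eq_inv', smul_eq_mul]
  rw [h1]
  refine ((analyticAt_det hA).inv h0).mul ?_
  have h2 : (fun x => (A x).adjugate i j) =
      fun x => ((A x).updateRow j (Pi.single i 1)).det := by
    funext x
    rw [Matrix.adjugate_apply]
  rw [h2]
  refine analyticAt_det (A := fun x => (A x).updateRow j (Pi.single i 1)) fun k l => ?_
  by_cases hk : k = j
  · subst hk
    simp only [Matrix.updateRow_self]
    exact analyticAt_const
  · simp only [Matrix.updateRow_ne hk]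
    exact hA k l

theorem analyticAt_coord (s : Sy g) (p : Sym2 (Fin g)) :
    AnalyticAt ℂ (fun x : Sy g => x p) s :=
  (ContinuousLinearMap.proj (R := ℂ) (φ := fun _ : Sym2 (Fin g) => ℂ) p).analyticAt s

theorem analyticAt_moeb {γ : Matrix (Fin g ⊕ Fin g) (Fin g ⊕ Fin g) ℤ}
    (h : γ ∈ Matrix.symplecticGroup (Fin g) ℤ) {τ : Sy g} (hτ : τ ∈ Siegel g) :
    AnalyticAt ℂ (fun s : Sy g => sy (moeb γ (mat s))) τ := by
  have hm : ∀ i j, AnalyticAt ℂ (fun s : Sy g => mat s i j) τ := fun i j => by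
    simp only [mat, of_apply]
    exact analyticAt_coord τ _
  have hc : ∀ A : Matrix (Fin g) (Fin g) ℤ, ∀ i j, AnalyticAt ℂ (fun _ : Sy g => toC A i j) τ :=
    fun A i j => analyticAt_const
  have hnum : ∀ i j, AnalyticAt ℂ (fun s : Sy g => num γ (mat s) i j) τ := by
    intro i j
    simp only [num, Matrix.add_apply]
    exact (analyticAt_mul (hc _) hm i j).add (hc _ i j)
  have hden : ∀ i j, AnalyticAt ℂ (fun s : Sy g => den γ (mat s) i j) τ := by
    intro i j
    simp only [den, Matrix.add_apply]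
    exact (analyticAt_mul (hc _) hm i j).add (hc _ i j)
  have hmo : ∀ i j, AnalyticAt ℂ (fun s : Sy g => moeb γ (mat s) i j) τ :=
    analyticAt_mul hnum (analyticAt_inv hden (den_unit h (mat_symm τ) hτ).ne_zero)
  refine AnalyticAt.pi fun p => ?_
  induction p with
  | h i j =>
    simp only [sy, Sym2.lift_mk]
    exact ((hmo i j).add (hmo j i)).div analyticAt_const two_ne_zero

instance : ContinuousConstSMul (Gam g) (Siegel g) where
  continuous_const_smul γ := by
    rw [continuous_iff_continuousAt]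
    intro τ
    rw [Topology.IsInducing.subtypeVal.continuousAt_iff]
    exact ((analyticAt_moeb γ.1.2 τ.2).continuousAt).comp continuous_subtype_val.continuousAt

theorem isOpenMap_mk : IsOpenMap (A24.mk : Siegel g → A24 g) :=
  isOpenMap_quotient_mk'_mul (Γ := Gam g) (T := Siegel g)

theorem continuous_mk : Continuous (A24.mk : Siegel g → A24 g) := continuous_quotient_mk'

end Pool.Agent.Helper1K9.TH
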